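import Pool.Agent.T6.H15.MH.Upper

/-!
# The reduction to the powers of the hypersurface
-/

set_option autoImplicit false

open MvPolynomial

namespace Pool.Agent.T6.H15.MH

open Pool.Agent.T6.H15.ZP Pool.Agent.T6.H15.MZ Pool.Agent.T6.H15.MS

variable {R : ℂ → ℂ → Prop} {G : Set ℂ}

/-- The fibred powers and their dimensions. -/
theorem exists_pow' (hR : Corr R G) {μ κ : Type} [Fintype μ] [Fintype κ] {c : μ → ℂ}
    {V : Set (κ → ℂ)} (hV : Base R G c V) (k : ℕ) :
    ∃ (ι T : Type) (_ : Fintype ι) (_ : Fintype T) (β : μ → ι) (copy : T → κ → ι)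
      (idx : ι → μ ⊕ (T × κ)) (W : Set (ι → ℂ)), MS.Pow R G k c V β copy idx W ∧
        dim W = k * dim V := by
  classical
  induction k with
  | zero =>
    refine ⟨μ, Empty, inferInstance, inferInstance, fun i => i, fun t => t.elim,
      fun i => Sum.inl i, {c}, ⟨isPow_zero hR.toRel _ hV.cind, rfl, Sum.inl_injective,
      fun i => rfl, fun t => t.elim, fun w _ t => t.elim, fun t => t.elim, ?_⟩, ?_⟩
    · intro p hp _
      exact funext hp
    · rw [dim_singleton, zero_mul]
  | succ k ih =>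
    obtain ⟨ι, T, _, _, β, copy, idx, W, hW, hdim⟩ := ih
    refine ⟨ι ⊕ κ, Option T, inferInstance, inferInstance, fun i => Sum.inl (β i),
      fun t a => match t with
        | none => Sum.inr a
        | some t => Sum.inl (copy t a),
      fun x => match x with
        | Sum.inl x => match idx x with
          | Sum.inl i => Sum.inl i
          | Sum.inr (t, a) => Sum.inr (some t, a)
        | Sum.inr a => Sum.inr (none, a),
      prodSet W V, ⟨isPow_succ hR hV rfl hW.pow, ?_, ?_, ?_, ?_, ?_, ?_, ?_⟩, ?_⟩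
    · rw [Fintype.card_option, hW.cardT]
    · intro x y hxy
      rcases x with x | a <;> rcases y with y | b
      · congr 1
        apply hW.inj
        dsimp only at hxy
        rcases h1 : idx x with i | ⟨t, a⟩ <;> rcases h2 : idx y with j | ⟨t', b⟩ <;>
          rw [h1, h2] at hxy
        · rw [Sum.inl.injEq] at hxy
          rw [hxy]
        · exact absurd hxy (by simp)
        · exact absurd hxy (by simp)
        · rw [Sum.inr.injEq, Prod.mk.injEq, Option.some.injEq] at hxy
          rw [hxy.1, hxy.2]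
      · dsimp only at hxy
        rcases h1 : idx x with i | ⟨t, a⟩ <;> rw [h1] at hxy
        · exact absurd hxy (by simp)
        · exact absurd hxy (by simp)
      · dsimp only at hxy
        rcases h1 : idx y with i | ⟨t, b⟩ <;> rw [h1] at hxy
        · exact absurd hxy (by simp)
        · exact absurd hxy (by simp)
      · dsimp only at hxy
        rw [Sum.inr.injEq, Prod.mk.injEq] at hxy
        rw [hxy.2]
    · intro i
      dsimp only
      rw [hW.idxβ]
    · intro t a
      rcases t with - | t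
      · rfl
      · dsimp only
        rw [hW.idxc]
    · intro z hz t
      rcases t with - | t
      · exact hz.2
      · exact hW.copies _ hz.1 t
    · intro t v hv
      rcases t with - | t
      · obtain ⟨w, hw⟩ := hW.pow.var.nonempty
        exact ⟨Sum.elim w v, elim_mem hw hv, rfl⟩
      · obtain ⟨w, hw, h1⟩ := hW.surj t v hv
        obtain ⟨v', hv'⟩ := hV.var.nonempty
        exact ⟨Sum.elim w v', elim_mem hw hv', h1⟩
    · intro p hp hp'
      exact ⟨hW.full _ hp fun t => hp' (some t), hp' none⟩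
    · rw [dim_prod hW.pow.var.irred hV.var.irred, hdim]
      ring

/-- The points with at most `r` classes are contained in finitely many closed sets of small defect. -/
def PtCov (R : ℂ → ℂ → Prop) (G : Set ℂ) (κ : Type) [Fintype κ] (r : ℝ) : Prop :=
  ∃ 𝒴 : Set (Set (κ × Fin 8 → ℂ)), 𝒴.Finite ∧
    (∀ Y ∈ 𝒴, IsVar Y ∧ Y ⊆ hyp κ ∧ gd R G Y < Fintype.card κ + dim Y) ∧
    ∀ z ∈ hyp κ, (ncl R G z : ℝ) ≤ r → ∃ Y ∈ 𝒴, z ∈ Y

theorem hyp_comp {κ κ' : Type} {z : κ × Fin 8 → ℂ} (hz : z ∈ hyp κ) (e : κ' → κ) :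
    (fun x : κ' × Fin 8 => z (e x.1, x.2)) ∈ hyp κ' := fun i => hz (e i)

theorem PtCov.equiv (hR : Rel R G) {κ κ' : Type} [Fintype κ] [Fintype κ'] (e : κ' ≃ κ) {r : ℝ}
    (h : PtCov R G κ r) : PtCov R G κ' r := by
  obtain ⟨𝒴, hfin, hY, hcov⟩ := h
  let E : κ' × Fin 8 ≃ κ × Fin 8 := Equiv.prodCongr e (Equiv.refl _)
  refine ⟨(fun Y => img E Y) '' 𝒴, hfin.image _, ?_, ?_⟩
  · rintro _ ⟨Y, hY', rfl⟩
    obtain ⟨h1, h2, h3⟩ := hY Y hY'
    refine ⟨isVar_img E h1, ?_, ?_⟩
    · rintro _ ⟨y, hy, rfl⟩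
      exact hyp_comp (h2 hy) e
    · dsimp only
      rw [gd_img_equiv hR, dim_img_equiv E h1, Fintype.card_congr e]
      exact h3
  · intro z hz hr
    obtain ⟨Y, hY', h1⟩ := hcov _ (hyp_comp hz e.symm) (by
      have h3 := ncl_comp_le hR z (fun x : κ × Fin 8 => (e.symm x.1, x.2))
      have h4 : (ncl R G (fun x : κ × Fin 8 => z (e.symm x.1, x.2)) : ℝ) ≤ ncl R G z := by
        exact_mod_cast h3
      exact h4.trans hr)
    refine ⟨_, ⟨Y, hY', rfl⟩, ⟨_, h1, ?_⟩⟩
    funext x
    obtain ⟨i, l⟩ := x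
    show z (e.symm (e i), l) = z (i, l)
    rw [Equiv.symm_apply_apply]

/-- Points with few classes and the maximal atypical special subvarieties. -/
theorem ptCov_of_finMax (hR : Corr R G) (hS : Shift R) {κ : Type} [Fintype κ]
    (H : FinMax R G (hyp κ)) {r : ℝ} (hr : r < Fintype.card κ) : PtCov R G κ r := by
  refine ⟨_, H, ?_, ?_⟩
  · rintro Y ⟨⟨h1, h2⟩, -⟩
    refine ⟨h1.1, h1.2.1, ?_⟩
    unfold Atyp at h2
    rw [dim_hyp, gd_hyp hR hS] at h2
    omega
  · intro z hz hzr
    have h0 : ncl R G z < Fintype.card κ := by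
      have := lt_of_le_of_lt hzr hr
      exact_mod_cast this
    obtain ⟨W, hW, hzW, hgW⟩ := exists_special hR isVar_hyp (isVar_singleton z)
      (Set.singleton_subset_iff.2 hz)
    rw [gd_singleton] at hgW
    have ha : Atyp R G (hyp κ) W := by
      unfold Atyp
      rw [dim_hyp, gd_hyp hR hS]
      omega
    obtain ⟨W0, h1, h2, h3⟩ := exists_maximal _ isVar_hyp hW ha
    exact ⟨W0, ⟨h1, h2⟩, h3 (hzW rfl)⟩

/-- The assumption on the points of the powers of the hypersurface. -/
def Few (R : ℂ → ℂ → Prop) (G : Set ℂ) : Prop :=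
  ∀ ε : ℝ, 0 < ε → ∀ m : ℕ, ∃ K, m ≤ K ∧ PtCov R G (Fin K) ((1 - ε) * K)

theorem no_base' (hR : Corr R G) (hS : Shift R) (H : Few R G) {μ κ : Type} [Fintype μ]
    [Fintype κ] {c : μ → ℂ} {V : Set (κ → ℂ)} (hV : Base R G c V) : False := by
  classical
  obtain ⟨B, hBc, -, hBav⟩ := exists_avoid hR
  have hκ : Nonempty κ := by
    by_contra hcon
    have : IsEmpty κ := not_nonempty_iff.1 hcon
    have hκ0 : Fintype.card κ = 0 := Fintype.card_eq_zero
    obtain ⟨v0, hv0⟩ := hV.var.nonempty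
    obtain ⟨v, hv, h1, -⟩ := hV.dense 1 (not_mem_of_eval hv0 (by simp))
    have h2 : Ind R G (Sum.elim c v) Finset.univ := by
      constructor
      · rintro (i | i) -
        · exact hV.cind.1 i (Finset.mem_univ i)
        · exact (IsEmpty.false i).elim
      · rintro (i | i) - (j | j) - hij
        · rw [hV.cind.2 i (Finset.mem_univ i) j (Finset.mem_univ j) hij]
        · exact (IsEmpty.false j).elim
        · exact (IsEmpty.false i).elim
        · exact (IsEmpty.false i).elim
    rw [ncl_of_ind_univ hR.toRel h2, Fintype.card_sum] at h1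
    omega
  -- the equations
  obtain ⟨s, hs, hsc⟩ := exists_indep hV.var.irred
  have hdep := fun b : {b // b ∉ s} => exists_dep hV.var.irred hsc b.1
  choose p hp hpv using hdep
  have hf : ∀ b : {b // b ∉ s}, depPoly b.1 (p b) ∈ idealOf V := by
    intro b
    rw [mem_idealOf]
    intro v hv
    unfold depPoly
    rw [eval_rename]
    refine hpv b ?_ v hv
    rintro (- | x) (- | y) hxy
    · rfl
    · exact absurd (show (b : κ) ∈ s by rw [show (b : κ) = y from hxy]; exact y.2) b.2
    · exact absurd (show (b : κ) ∈ s by rw [← show (x : κ) = b from hxy]; exact x.2) b.2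
    · rw [Subtype.ext (show (x : κ) = y from hxy)]
  -- the point
  obtain ⟨P, hPm, hP⟩ := hR.poly
  obtain ⟨v1, hv1, hv1i⟩ := hV.generic
  obtain ⟨v0, hv0, hv0i, hv0B⟩ := exists_ind_avoid hR hV.var hV.nonconst hP (by
    intro m k l hkl
    apply not_mem_of_eval hv1
    rw [eval_toMv]
    intro h0
    exact hkl (hv1i.2 k (Finset.mem_univ k) l (Finset.mem_univ l) ((hP _ _).2 ⟨m, h0⟩))) hBc
  obtain ⟨ν, hν⟩ := exists_not_mem_countable (F := (G ∪ B) ∪ ((⋃ m, {y | R (c m) y}) ∪
    Set.range v0)) ((hR.count.union hBc).union ((Set.countable_iUnion fun m => hR.cls (c m)).union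
      (Set.countable_range v0)))
  simp only [Set.mem_union, Set.mem_iUnion, Set.mem_ofPred_eq, Set.mem_range, not_or,
    not_exists] at hν
  obtain ⟨⟨hνG, hνB⟩, hνc, hνv⟩ := hν
  have hcν : Ind R G (Sum.elim c fun _ : Unit => ν) Finset.univ := by
    constructor
    · rintro (m | u) -
      · exact hV.cind.1 m (Finset.mem_univ m)
      · exact hνG
    · rintro (m | u) - (m' | u') - hij
      · rw [hV.cind.2 m (Finset.mem_univ m) m' (Finset.mem_univ m') hij]
      · exact absurd hij (hνc m)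
      · exact absurd (hR.equiv.symm hij) (hνc m')
      · rfl
  obtain ⟨E⟩ := exists_circ (v0 := v0) (ν := ν) hνv
    (fun b : {b // b ∉ s} => depPoly b.1 (p b))
  have hvB : ∃ v ∈ sharp V E, ∀ z, v z ∉ B := by
    obtain ⟨m, -, hm⟩ := exists_masks hR hS hv0i (N := Gt E)
      (Sum.elim (fun t => eval v0 (t.1.val ν)) fun _ => 1) (by
        rintro (t | i)
        · exact E.good.ne t.1 t.2
        · exact one_ne_zero) hBc
    refine ⟨_, eval_sharpF_mem E (w := Sum.elim v0 m) hv0, ?_⟩
    rintro (a | n | t)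
    · show eval _ (X (Sum.inl a)) ∉ B
      rw [eval_X]
      exact hv0B a
    · show eval _ (X (Sum.inr n)) ∉ B
      rw [eval_X]
      exact (hm n).1
    · show eval _ (X (Sum.inr (Sum.inl t)) + rename Sum.inl (t.1.val ν)) ∉ B
      rw [map_add, eval_X, eval_rename]
      exact (hm (Sum.inl t)).2
  -- the numbers
  set N := Fintype.card (Gt E) with hN
  have hN0 : 0 < N := by
    obtain ⟨a⟩ := hκ
    exact Fintype.card_pos_iff.2 ⟨Sum.inl ⟨_, E.inpS a⟩⟩
  set q0 := Fintype.card μ + 1 + 2 * Fintype.card E.A with hq0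
  obtain ⟨K, hK, HK⟩ := H (1 / (2 * N)) (by positivity) (N * (2 * (q0 + N) + 2))
  set k := K / N with hk
  set j := K % N with hj
  have hKeq : K = k * N + j := by
    have h1 := Nat.div_add_mod K N
    rw [← hk, ← hj, mul_comm] at h1
    omega
  have hjN : j < N := Nat.mod_lt _ hN0
  have hkbig : 2 * (q0 + N) + 2 ≤ k := by
    rw [hk, Nat.le_div_iff_mul_le hN0, mul_comm]
    exact hK
  -- the parameters
  obtain ⟨g, hg, hgB⟩ := exists_masks hR hS hcν (Dj E j) (by
    rintro (a | q)
    · rintro h0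
      apply E.good.zero
      have h1 : (a : ℂ) = 0 := h0
      rw [← h1]
      exact a.2
    · exact two_ne_zero) hBc
  have hbase := base_sharp hR hS hV E hv0 hv0i (g := Sum.elim g fun i => g i + Dj E j i) hg
  obtain ⟨ι, T, _, _, β, copy, idx, W, hW, hdimW⟩ := exists_pow' hR hbase k
  have hT : Nonempty T := by
    rw [← Fintype.card_pos_iff, hW.cardT]
    omega
  have hsit : Sit R G E k c g V B β copy idx W :=
    ⟨hV.var, hs, hsc, hp, hf, hW, hνB, hgB, hvB, hT, hκ⟩
  have hcardGI : Fintype.card ((T × Gt E) ⊕ Fin j) = K := by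
    rw [Fintype.card_sum, Fintype.card_prod, Fintype.card_fin, hW.cardT, ← hN, ← hKeq]
  obtain ⟨𝒴, hfin, hY, hcov⟩ := PtCov.equiv hR.toRel (Fintype.equivFinOfCardEq hcardGI) HK
  -- no member of the family contains the image
  have hirr : (idealOf (img (rho β copy) W)).IsPrime := irred_img hW.pow.var.irred
  have hex : ∀ Y, Y ∈ 𝒴 → ∃ q, q ∈ idealOf Y ∧ q ∉ idealOf (img (rho β copy) W) := by
    intro Y hYm
    by_contra hall
    push Not at hall
    obtain ⟨h1, h2, h3⟩ := hY Y hYm
    have h4 := hsit.upper hR hBav h1 h2 (h1.subset_of_ideal hall)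
    omega
  choose! q hq hq' using hex
  have hprod : (∏ Y ∈ hfin.toFinset, q Y) ∉ idealOf (img (rho β copy) W) := by
    intro hmem
    obtain ⟨Y, hYm, h3⟩ := (hirr.prod_mem_iff).1 hmem
    rw [Set.Finite.mem_toFinset] at hYm
    exact hq' Y hYm h3
  rw [mem_idealOf_img] at hprod
  obtain ⟨w, hw, h4, h5⟩ := hW.pow.dense _ hprod
  rw [eval_rename] at h5
  have h6 := hsit.mem_hyp hw
  have h7 : ncl R G (fun z => w (rho β copy z)) ≤ ncl R G w := ncl_comp_le hR.toRel w _
  have h8 := hsit.card_ι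
  have h9 := card_Gt (E := E)
  rw [hdimW, dim_sharp hV.var E, ← hsc, h8] at h4
  have h10 : ncl R G (fun z => w (rho β copy z)) + k ≤ K + (q0 + N) := by
    have e1 : k * (Fintype.card κ + (Fintype.card (Gt E) + Fintype.card E.S)) =
        k * (s.card + Fintype.card (Gt E)) + k * N := by
      rw [← mul_add]
      congr 1
      omega
    rw [e1] at h4
    omega
  obtain ⟨Y, hYm, h11⟩ := hcov _ h6 (by
    have e1 : ((ncl R G (fun z => w (rho β copy z)) + k : ℕ) : ℝ) ≤ (K + (q0 + N) : ℕ) := by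
      exact_mod_cast h10
    have e2 : ((2 * (q0 + N) + 2 : ℕ) : ℝ) ≤ k := by exact_mod_cast hkbig
    have e3 : (K : ℝ) = k * N + j := by exact_mod_cast hKeq
    have e4 : (j : ℝ) ≤ N := by exact_mod_cast hjN.le
    have hNr : (0 : ℝ) < N := by exact_mod_cast hN0
    have e5 : (1 / (2 * N) : ℝ) * K ≤ k / 2 + 1 / 2 := by
      rw [e3, div_mul_eq_mul_div, one_mul, div_le_iff₀ (by positivity)]
      nlinarith
    push_cast at e1 e2
    nlinarith)
  apply h5
  have h12 : eval (w ∘ rho β copy) (∏ Y ∈ hfin.toFinset, q Y) = 0 := by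
    rw [map_prod]
    refine Finset.prod_eq_zero (i := Y) ((Set.Finite.mem_toFinset _).2 hYm) ?_
    exact mem_idealOf.1 (hq Y hYm) _ h11
  exact h12

/-- The points of excess at least one are not dense on any subvariety. -/
theorem not_dns_few (hR : Corr R G) (hS : Shift R) (H : Few R G) {ι : Type} [Fintype ι]
    {V : Set (ι → ℂ)} (hV : IsVar V) : ¬ Dns R G V (gd R G V) 1 := by
  classical
  intro hd
  obtain ⟨x0, h0⟩ := exists_gen' hR hV
  obtain ⟨T, -, hT, hTc, hTn⟩ :=
    exists_transversal hR.toRel (ind_empty (R := R) (G := G) x0)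
  set X : Set (T → ℂ) := img (fun i : T => (i : ι)) V with hX
  have hcard : Fintype.card T = gd R G V := by
    rw [Fintype.card_coe, hTn, h0.ncl_eq hR.toRel]
  obtain ⟨μ, κ, _, _, c, V', hb⟩ := exists_base hR (ι := T) (isVar_zcl (irred_img hV.irred))
    (V := zcl X) (by
      refine ⟨_, subset_zcl X ⟨x0, h0.mem, rfl⟩, ?_⟩
      constructor
      · intro i _
        exact hT.1 i i.2
      · intro i _ j _ hij
        exact Subtype.ext (hT.2 i i.2 j j.2 hij)) (by
      intro f hf
      rw [idealOf_zcl, hX, mem_idealOf_img] at hf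
      obtain ⟨x, hx, h1, h2⟩ := hd _ hf
      rw [eval_rename] at h2
      refine ⟨fun i : T => x (i : ι), subset_zcl X ⟨x, hx, rfl⟩, ?_, h2⟩
      rw [dim_zcl, hcard]
      have h3 := ncl_comp_le hR.toRel x (fun i : T => (i : ι))
      have h4 : dim X ≤ dim V := dim_img_le hV.irred
      omega)
  exact no_base' hR hS H hb

/-- **Main theorem.** -/
theorem main (hR : Corr R G) (hS : Shift R) : List.TFAE [
    ∀ (n : ℕ) (S : Set (Fin n → ℂ)), IsVar S → FinMax R G S,
    ∀ K : ℕ, FinMax R G (hyp (Fin K)),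
    ∀ m : ℕ, ∃ K, m ≤ K ∧ FinMax R G (hyp (Fin K)),
    ∀ ε : ℝ, 0 < ε → ∀ m : ℕ, ∃ K, m ≤ K ∧ PtCov R G (Fin K) ((1 - ε) * K)] := by
  tfae_have 1 → 2 := fun H K =>
    finMax_of_not_dns hR (fun Z hZ => not_dns_of_forall hR H hZ) isVar_hyp
  tfae_have 2 → 3 := fun H m => ⟨m, le_rfl, H m⟩
  tfae_have 3 → 4 := by
    intro H ε hε m
    obtain ⟨K, hK, h⟩ := H (max m 1)
    refine ⟨K, (le_max_left _ _).trans hK, ptCov_of_finMax hR hS h ?_⟩
    have h1 : (1 : ℝ) ≤ K := by exact_mod_cast (le_max_right m 1).trans hK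
    rw [Fintype.card_fin]
    nlinarith
  tfae_have 4 → 1 := fun H n S hSv =>
    finMax_of_not_dns hR (fun _ hZ => not_dns_few hR hS H hZ) hSv
  tfae_finish

end Pool.Agent.T6.H15.MH
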