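import Pool.Agent.T6.H15.MH.Emb

/-!
# The defects of closed sets which contain the image of a power
-/

set_option autoImplicit false

open MvPolynomial

namespace Pool.Agent.T6.H15.MH

open Pool.Agent.T6.H15.ZP Pool.Agent.T6.H15.MZ Pool.Agent.T6.H15.MS

variable {R : ℂ → ℂ → Prop} {G : Set ℂ}

variable {κ μ ι T : Type} [Fintype κ] [DecidableEq κ] [Fintype μ] [Fintype ι] [Fintype T] {s : Finset κ}
  {p : {b // b ∉ s} → MvPolynomial (Option s) ℂ} {ν : ℂ} {v0 : κ → ℂ}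
  {E : Circ ν v0 (fun b : {b // b ∉ s} => depPoly b.1 (p b))} {j k : ℕ} {c : μ → ℂ}
  {g : Jx E j → ℂ} {V : Set (κ → ℂ)} {B : Set ℂ}
  {β : Cx μ E j → ι} {copy : T → Cd E → ι} {idx : ι → Cx μ E j ⊕ (T × Cd E)} {W : Set (ι → ℂ)}

/-- the differences of the parameters -/
def Dj (E : Circ ν v0 (fun b : {b // b ∉ s} => depPoly b.1 (p b))) (j : ℕ) : Jx E j → ℂ :=
  Sum.elim (fun a => (a : ℂ)) (fun _ => 2)

/-- the values of the constant coordinates -/
def cc (c : μ → ℂ) (g : Jx E j → ℂ) : Cx μ E j → ℂ :=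
  Sum.elim (Sum.elim c fun _ => ν) (Sum.elim g fun i => g i + Dj E j i)

/-- All the data. -/
structure Sit (R : ℂ → ℂ → Prop) (G : Set ℂ) (E : Circ ν v0 (fun b : {b // b ∉ s} =>
    depPoly b.1 (p b))) (k : ℕ) (c : μ → ℂ) (g : Jx E j → ℂ) (V : Set (κ → ℂ)) (B : Set ℂ)
    (β : Cx μ E j → ι) (copy : T → Cd E → ι) (idx : ι → Cx μ E j ⊕ (T × Cd E))
    (W : Set (ι → ℂ)) : Prop where
  hV : IsVar V
  sind : Indep V (fun i : s => (i : κ))
  scard : s.card = dim V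
  hp : ∀ b, p b ≠ 0
  hf : ∀ b : {b // b ∉ s}, depPoly b.1 (p b) ∈ idealOf V
  pow : MS.Pow R G k (cc c g) (sharp V E) β copy idx W
  νB : ν ∉ B
  gB : ∀ i, g i ∉ B ∧ g i + Dj E j i ∉ B
  vB : ∃ v ∈ sharp V E, ∀ z, v z ∉ B
  neT : Nonempty T
  neκ : Nonempty κ

theorem Sit.emb_eq (h : Sit R G E k c g V B β copy idx W) {w : ι → ℂ} (hw : w ∈ W) (t : T) :
    (fun l => w (emb β copy t l)) = Sum.elim (cc c g) (fun a => w (copy t a)) := by
  funext l
  rcases l with l | l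
  · exact h.pow.pow.base w hw l
  · rfl

theorem Sit.mem_hyp (h : Sit R G E k c g V B β copy idx W) {w : ι → ℂ} (hw : w ∈ W) :
    (fun z => w (rho β copy z)) ∈ hyp ((T × Gt E) ⊕ Fin j) := by
  rw [mem_hyp_iff]
  constructor
  · intro t n
    rw [h.emb_eq hw t]
    refine gateEq_sharp (V := V) E rfl ?_ (h.pow.copies w hw t) h.hf n
    intro a
    show g (Sum.inl a) + (a : ℂ) - g (Sum.inl a) = a
    ring
  · intro q
    have hb := h.pow.pow.base w hw
    rw [hb, hb, hb, hb]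
    show g (Sum.inr q) + 2 - g (Sum.inr q) = (g _ + 1 - g _) * (g _ + 1 - g _) + (g _ + 1 - g _)
    ring

theorem cp_ne (t : Term κ) (m : μ) :
    (cp μ E j t).1 ≠ Sum.inl (Sum.inl (Sum.inl m)) ∧
      (cp μ E j t).2 ≠ Sum.inl (Sum.inl (Sum.inl m)) := by
  rcases t with a | d | _ | ⟨t1, t2, t3⟩
  · rw [cp]
    simp [nu]
  · rw [cp]
    split_ifs <;> simp [nu]
  · rw [cp]
    simp [nu]
  · rw [cp]
    split_ifs <;> simp [nu]

theorem cp8_ne (n : Gt E) (l : Fin 8) (m : μ) :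
    cp8 μ E j n l ≠ Sum.inl (Sum.inl (Sum.inl m)) := by
  have h1 : (outp μ E j n).1 ≠ Sum.inl (Sum.inl (Sum.inl m)) ∧
      (outp μ E j n).2 ≠ Sum.inl (Sum.inl (Sum.inl m)) := by
    rcases n with t | i <;> rw [outp] <;> simp
  fin_cases l
  · exact (cp_ne _ m).1
  · exact (cp_ne _ m).2
  · exact (cp_ne _ m).1
  · exact (cp_ne _ m).2
  · exact (cp_ne _ m).1
  · exact (cp_ne _ m).2
  · exact h1.1
  · exact h1.2

theorem Sit.rho_ne (h : Sit R G E k c g V B β copy idx W) (z : ((T × Gt E) ⊕ Fin j) × Fin 8)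
    (m : μ) : rho β copy z ≠ β (Sum.inl (Sum.inl m)) := by
  intro heq
  obtain ⟨⟨t, n⟩ | q, l⟩ := z
  · have h1 := congrArg idx heq
    rw [h.pow.idxβ] at h1
    rw [rho] at h1
    rcases h2 : cp8 μ E j n l with x | x
    · rw [h2] at h1
      have h3 : idx (emb β copy t (Sum.inl x)) = Sum.inl x := h.pow.idxβ x
      rw [h3, Sum.inl.injEq] at h1
      rw [h1] at h2
      exact cp8_ne n l m h2
    · rw [h2] at h1
      have h3 : idx (emb β copy t (Sum.inr x)) = Sum.inr (t, x) := h.pow.idxc t x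
      rw [h3] at h1
      exact absurd h1 (by simp)
  · have h1 := congrArg idx heq
    rw [rho, h.pow.idxβ, h.pow.idxβ, Sum.inl.injEq] at h1
    fin_cases l <;> exact absurd h1 (by simp [pad8])

/-- Every coordinate, except for the original constant coordinates, is one of the gates. -/
theorem Sit.rho_surj (h : Sit R G E k c g V B β copy idx W) (i : ι) :
    (∃ z, rho β copy z = i) ∨ ∃ m, i = β (Sum.inl (Sum.inl m)) := by
  obtain ⟨t0⟩ := h.neT
  obtain ⟨a0⟩ := h.neκ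
  have hcopy : ∀ t x, (∃ n l, cp8 μ E j n l = Sum.inr x) → ∃ z, rho β copy z = copy t x := by
    rintro t x ⟨n, l, h1⟩
    refine ⟨(Sum.inl (t, n), l), ?_⟩
    rw [rho, h1]
    rfl
  have hbeta : ∀ x, (∃ n l, cp8 μ E j n l = Sum.inl x) → ∃ z, rho β copy z = β x := by
    rintro x ⟨n, l, h1⟩
    refine ⟨(Sum.inl (t0, n), l), ?_⟩
    rw [rho, h1]
    rfl
  rcases h.pow.cases i with ⟨x, rfl⟩ | ⟨t, x, rfl⟩
  · rcases x with (m | u) | (a | q) | (a | q)
    · exact Or.inr ⟨m, rfl⟩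
    · left
      apply hbeta
      refine ⟨Sum.inl ⟨_, E.inpS a0⟩, 1, ?_⟩
      show (cp μ E j (Term.inp a0)).2 = _
      rw [cp]
      rfl
    · left
      apply hbeta
      obtain ⟨a', ha'⟩ := E.constS a.1 a.2
      refine ⟨Sum.inl ⟨_, ha'⟩, 1, ?_⟩
      show (cp μ E j (Term.const a.1)).2 = _
      rw [cp, dif_pos a.2]
    · left
      exact ⟨(Sum.inr q, 7), rfl⟩
    · left
      apply hbeta
      obtain ⟨a', ha'⟩ := E.constS a.1 a.2
      refine ⟨Sum.inl ⟨_, ha'⟩, 0, ?_⟩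
      show (cp μ E j (Term.const a.1)).1 = _
      rw [cp, dif_pos a.2]
    · left
      exact ⟨(Sum.inr q, 6), rfl⟩
  · left
    apply hcopy
    rcases x with a | n | t'
    · refine ⟨Sum.inl ⟨_, E.inpS a⟩, 0, ?_⟩
      show (cp μ E j (Term.inp a)).1 = _
      rw [cp]
    · refine ⟨n, 7, ?_⟩
      rcases n with t' | i <;> rfl
    · exact ⟨Sum.inl t', 6, rfl⟩

end Pool.Agent.T6.H15.MH
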