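import Pool.Agent.T6.H15.MH.Mask

/-!
# The powers of the hypersurface
-/

set_option autoImplicit false

open MvPolynomial

namespace Pool.Agent.T6.H15.MH

open Pool.Agent.T6.H15.ZP Pool.Agent.T6.H15.MZ Pool.Agent.T6.H15.MS

/-- The power of the hypersurface `x₆ - x₇ = (x₀ - x₁) (x₂ - x₃) + (x₄ - x₅)`. -/
def hyp (κ : Type) : Set (κ × Fin 8 → ℂ) :=
  {z | ∀ i, z (i, 6) - z (i, 7) =
    (z (i, 0) - z (i, 1)) * (z (i, 2) - z (i, 3)) + (z (i, 4) - z (i, 5))}

/-- The parametrization of the hypersurface. -/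
noncomputable def hypF {κ : Type} (i : κ) : Fin 8 → MvPolynomial (κ × Fin 7) ℂ
  | 0 => X (i, 0)
  | 1 => X (i, 1)
  | 2 => X (i, 2)
  | 3 => X (i, 3)
  | 4 => X (i, 4)
  | 5 => X (i, 5)
  | 6 => X (i, 6) + ((X (i, 0) - X (i, 1)) * (X (i, 2) - X (i, 3)) + (X (i, 4) - X (i, 5)))
  | 7 => X (i, 6)

/-- the free coordinates -/
def hypP : Fin 7 → Fin 8 := ![0, 1, 2, 3, 4, 5, 7]

section

variable {κ : Type}

theorem hypF_hypP (i : κ) (l : Fin 7) : hypF i (hypP l) = X (i, l) := by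
  fin_cases l <;> rfl

theorem eval_hypF_mem (w : κ × Fin 7 → ℂ) :
    (fun z : κ × Fin 8 => eval w (hypF z.1 z.2)) ∈ hyp κ := by
  intro i
  simp only [hypF, map_add, map_mul, map_sub, eval_X]
  ring

theorem eq_hypF {z : κ × Fin 8 → ℂ} (hz : z ∈ hyp κ) (x : κ × Fin 8) :
    z x = eval (fun i : κ × Fin 7 => z (i.1, hypP i.2)) (hypF x.1 x.2) := by
  obtain ⟨i, l⟩ := x
  have h := hz i
  fin_cases l
  · simp [hypF, hypP]
  · simp [hypF, hypP]
  · simp [hypF, hypP]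
  · simp [hypF, hypP]
  · simp [hypF, hypP]
  · simp [hypF, hypP]
  · have h1 : z (i, 6) = z (i, 7) + ((z (i, 0) - z (i, 1)) * (z (i, 2) - z (i, 3)) +
        (z (i, 4) - z (i, 5))) := by linear_combination h
    simpa [hypF, hypP] using h1
  · simp [hypF, hypP]

theorem hyp_eq : hyp κ = (fun (w : κ × Fin 7 → ℂ) (z : κ × Fin 8) =>
    eval w (hypF z.1 z.2)) '' Set.univ := by
  ext z
  constructor
  · intro hz
    refine ⟨fun i => z (i.1, hypP i.2), Set.mem_univ _, ?_⟩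
    funext x
    exact (eq_hypF hz x).symm
  · rintro ⟨w, -, rfl⟩
    exact eval_hypF_mem w

variable [Fintype κ]

theorem isVar_hyp : IsVar (hyp κ) := by
  rw [hyp_eq]
  refine isVar_graph (ι := κ × Fin 7) (τ := κ × Fin 8) isVar_univ (fun z => hypF z.1 z.2)
    (fun x => (x.1, hypP x.2)) ?_
  intro w _ x
  show eval w (hypF x.1 (hypP x.2)) = w x
  rw [hypF_hypP, eval_X]

theorem dim_hyp : dim (hyp κ) = 7 * Fintype.card κ := by
  have h1 : img (fun x : κ × Fin 7 => (x.1, hypP x.2)) (hyp κ) = Set.univ := by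
    rw [Set.eq_univ_iff_forall]
    intro w
    refine ⟨_, eval_hypF_mem w, ?_⟩
    funext x
    show eval w (hypF x.1 (hypP x.2)) = w x
    rw [hypF_hypP, eval_X]
  have h2 : Fintype.card (κ × Fin 7) = 7 * Fintype.card κ := by
    rw [Fintype.card_prod, Fintype.card_fin, mul_comm]
  apply le_antisymm
  · have h := dim_le_img isVar_hyp.irred (fun z : κ × Fin 8 => hypF z.1 z.2)
      (fun x : κ × Fin 7 => (x.1, hypP x.2)) fun x hx z => eq_hypF hx z
    rwa [h1, dim_univ, h2] at h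
  · have h := dim_img_le (f := fun x : κ × Fin 7 => (x.1, hypP x.2))
      (isVar_hyp (κ := κ)).irred
    rwa [h1, dim_univ, h2] at h

variable {R : ℂ → ℂ → Prop} {G : Set ℂ}

theorem exists_ind_point (hR : Corr R G) (hS : Shift R) (N : Type) [Fintype N] :
    ∃ x : N → ℂ, Ind R G x Finset.univ := by
  obtain ⟨g, hg, -⟩ := exists_masks hR hS (σ := Empty) (N := N) (x := fun e => e.elim)
    ⟨fun i => i.elim, fun i => i.elim⟩ (fun _ => 1) (fun _ => one_ne_zero)
    (B := ∅) Set.countable_empty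
  exact ⟨g, hg.comp (f := fun i => Sum.inr (Sum.inl i))
    (Sum.inr_injective.comp Sum.inl_injective)⟩

theorem hyp_generic (hR : Corr R G) (hS : Shift R) :
    ∃ z ∈ hyp κ, Ind R G z Finset.univ := by
  classical
  obtain ⟨x, hx⟩ := exists_ind_point hR hS (κ × Fin 5)
  obtain ⟨y, hy, hy'⟩ := exists_masks hR hS hx (N := κ) (fun _ => 1) (fun _ => one_ne_zero)
    (B := Set.range fun i : κ => (x (i, 0) - x (i, 1)) * (x (i, 2) - x (i, 3)) + x (i, 4))
    (Set.countable_range _)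
  have hy2 : Ind R G (Sum.elim x y) Finset.univ := by
    have h := hy.comp (f := Sum.map id Sum.inl)
      (Sum.map_injective.2 ⟨Function.injective_id, Sum.inl_injective⟩)
    have h2 : (fun k : (κ × Fin 5) ⊕ κ => (Sum.elim x (Sum.elim y fun i => y i + 1) :
        (κ × Fin 5) ⊕ (κ ⊕ κ) → ℂ) ((Sum.map id Sum.inl : (κ × Fin 5) ⊕ κ →
          (κ × Fin 5) ⊕ (κ ⊕ κ)) k)) = Sum.elim x y := by
      funext k
      rcases k with k | k <;> rfl
    rwa [h2] at h
  let D : κ → ℂ := fun i => (x (i, 0) - x (i, 1)) * (x (i, 2) - x (i, 3)) + (x (i, 4) - y i)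
  have hD : ∀ i, D i ≠ 0 := by
    intro i h
    apply (hy' i).1
    refine ⟨i, ?_⟩
    dsimp only
    linear_combination h
  obtain ⟨g, hg, -⟩ := exists_masks hR hS hy2 (N := κ) D hD (B := ∅) Set.countable_empty
  let f : κ × Fin 8 → ((κ × Fin 5) ⊕ κ) ⊕ (κ ⊕ κ) := fun p => match p with
    | (i, 0) => Sum.inl (Sum.inl (i, 0))
    | (i, 1) => Sum.inl (Sum.inl (i, 1))
    | (i, 2) => Sum.inl (Sum.inl (i, 2))
    | (i, 3) => Sum.inl (Sum.inl (i, 3))
    | (i, 4) => Sum.inl (Sum.inl (i, 4))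
    | (i, 5) => Sum.inl (Sum.inr i)
    | (i, 6) => Sum.inr (Sum.inr i)
    | (i, 7) => Sum.inr (Sum.inl i)
  let e5 : Fin 5 → Fin 8 := ![0, 1, 2, 3, 4]
  let f' : ((κ × Fin 5) ⊕ κ) ⊕ (κ ⊕ κ) → κ × Fin 8 := fun p => match p with
    | Sum.inl (Sum.inl (i, l)) => (i, e5 l)
    | Sum.inl (Sum.inr i) => (i, 5)
    | Sum.inr (Sum.inr i) => (i, 6)
    | Sum.inr (Sum.inl i) => (i, 7)
  have hf : Function.Injective f := by
    have h : Function.LeftInverse f' f := by
      rintro ⟨i, l⟩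
      fin_cases l <;> rfl
    exact h.injective
  refine ⟨_, ?_, hg.comp hf⟩
  intro i
  show (g i + D i) - g i = (x (i, 0) - x (i, 1)) * (x (i, 2) - x (i, 3)) + (x (i, 4) - y i)
  simp only [D]
  ring

theorem gd_hyp (hR : Corr R G) (hS : Shift R) : gd R G (hyp κ) = 8 * Fintype.card κ := by
  have h2 : Fintype.card (κ × Fin 8) = 8 * Fintype.card κ := by
    rw [Fintype.card_prod, Fintype.card_fin, mul_comm]
  apply le_antisymm
  · apply gd_le isVar_hyp.nonempty
    intro x _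
    rw [← h2]
    exact ncl_le hR.toRel x
  · obtain ⟨z, hz, hi⟩ := hyp_generic (κ := κ) hR hS
    rw [← h2, ← ncl_of_ind_univ hR.toRel hi]
    exact ncl_le_gd hR.toRel hz

end

end Pool.Agent.T6.H15.MH
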