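import Pool.Agent.T6.H15.MH.Term
import Pool.Agent.T6.H15.MH.Hyp

/-!
# Graphs of circuits
-/

set_option autoImplicit false

open MvPolynomial

namespace Pool.Agent.T6.H15.MH

open Pool.Agent.T6.H15.ZP Pool.Agent.T6.H15.MZ Pool.Agent.T6.H15.MS

variable {R : ℂ → ℂ → Prop} {G : Set ℂ}

/-! ### Polynomials for the dependent coordinates -/

/-- Nontrivial equations between a transcendence basis and another coordinate. -/
theorem exists_dep {κ : Type} [Fintype κ] {V : Set (κ → ℂ)} (hV : Irred V) {s : Finset κ}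
    (hsc : s.card = dim V) (b : κ) :
    ∃ p : MvPolynomial (Option s) ℂ, p ≠ 0 ∧ (Function.Injective
      (fun o : Option s => (o.elim b (fun a => (a : κ)) : κ)) →
      ∀ v ∈ V, eval (fun o : Option s => v (o.elim b fun a => (a : κ))) p = 0) := by
  classical
  by_contra hcon
  push Not at hcon
  have h1 : Function.Injective (fun o : Option s => (o.elim b (fun a => (a : κ)) : κ)) :=
    (hcon 1 one_ne_zero).1
  have h2 : Indep V (fun o : Option s => (o.elim b (fun a => (a : κ)) : κ)) := by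
    intro p hp
    by_contra hne
    obtain ⟨-, v, hv, h3⟩ := hcon p hne
    exact h3 (hp v hv)
  have h3 := h2.card_le hV
  rw [Fintype.card_option, Fintype.card_coe, hsc] at h3
  omega

/-- The equation as a polynomial in the coordinates. -/
noncomputable def depPoly {κ : Type} {s : Finset κ} (b : κ) (p : MvPolynomial (Option s) ℂ) :
    MvPolynomial κ ℂ := rename (fun o : Option s => (o.elim b (fun a => (a : κ)) : κ)) p

/-! ### The variety -/

section

variable {κ I : Type} {ν : ℂ} {v0 : κ → ℂ} {f : I → MvPolynomial κ ℂ}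

/-- the gates of a copy -/
abbrev Gt (E : Circ ν v0 f) : Type := E.S ⊕ I

/-- the coordinates of a copy: the inputs, the masks, and the masked outputs -/
abbrev Cd (E : Circ ν v0 f) : Type := κ ⊕ (Gt E ⊕ E.S)

noncomputable instance (E : Circ ν v0 f) : Fintype E.S := E.good.finS.fintype

noncomputable instance (E : Circ ν v0 f) : Fintype E.A := E.good.finA.fintype

/-- The graph of the circuit over `V`. -/
def sharp (V : Set (κ → ℂ)) (E : Circ ν v0 f) : Set (Cd E → ℂ) :=
  {v | (fun a => v (Sum.inl a)) ∈ V ∧ ∀ t : E.S, v (Sum.inr (Sum.inr t)) =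
    v (Sum.inr (Sum.inl (Sum.inl t))) + eval (fun a => v (Sum.inl a)) (t.1.val ν)}

/-- its parametrization -/
noncomputable def sharpF (E : Circ ν v0 f) : Cd E → MvPolynomial (κ ⊕ Gt E) ℂ
  | Sum.inl a => X (Sum.inl a)
  | Sum.inr (Sum.inl n) => X (Sum.inr n)
  | Sum.inr (Sum.inr t) => X (Sum.inr (Sum.inl t)) + rename Sum.inl (t.1.val ν)

/-- the free coordinates -/
def sharpP (E : Circ ν v0 f) : κ ⊕ Gt E → Cd E
  | Sum.inl a => Sum.inl a
  | Sum.inr n => Sum.inr (Sum.inl n)

theorem sharpF_P (E : Circ ν v0 f) (k : κ ⊕ Gt E) : sharpF E (sharpP E k) = X k := by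
  rcases k with a | n <;> rfl

theorem eval_sharpF_mem {V : Set (κ → ℂ)} (E : Circ ν v0 f) {w : κ ⊕ Gt E → ℂ}
    (hw : (fun a => w (Sum.inl a)) ∈ V) : (fun z => eval w (sharpF E z)) ∈ sharp V E := by
  have h1 : (fun a => (fun z => eval w (sharpF E z)) (Sum.inl a)) = fun a => w (Sum.inl a) := by
    funext a
    show eval w (X (Sum.inl a)) = _
    rw [eval_X]
  refine ⟨?_, fun t => ?_⟩
  · rw [h1]
    exact hw
  · rw [h1]
    show eval w (X (Sum.inr (Sum.inl t)) + rename Sum.inl (t.1.val ν)) =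
      eval w (X (Sum.inr (Sum.inl t))) + _
    rw [map_add, eval_rename]
    rfl

theorem eq_sharpF {V : Set (κ → ℂ)} (E : Circ ν v0 f) {v : Cd E → ℂ} (hv : v ∈ sharp V E)
    (z : Cd E) : v z = eval (fun k => v (sharpP E k)) (sharpF E z) := by
  rcases z with a | n | t
  · show _ = eval _ (X (Sum.inl a))
    rw [eval_X]
    rfl
  · show _ = eval _ (X (Sum.inr n))
    rw [eval_X]
    rfl
  · show _ = eval _ (X (Sum.inr (Sum.inl t)) + rename Sum.inl (t.1.val ν))
    rw [map_add, eval_X, eval_rename, hv.2 t]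
    rfl

theorem sharp_eq (V : Set (κ → ℂ)) (E : Circ ν v0 f) : sharp V E =
    (fun (w : κ ⊕ Gt E → ℂ) z => eval w (sharpF E z)) '' prodSet V Set.univ := by
  ext v
  constructor
  · intro hv
    refine ⟨fun k => v (sharpP E k), ⟨hv.1, Set.mem_univ _⟩, ?_⟩
    funext z
    exact (eq_sharpF E hv z).symm
  · rintro ⟨w, hw, rfl⟩
    exact eval_sharpF_mem E hw.1

variable [Fintype κ] [Fintype I]

theorem isVar_sharp {V : Set (κ → ℂ)} (hV : IsVar V) (E : Circ ν v0 f) : IsVar (sharp V E) := by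
  rw [sharp_eq]
  refine isVar_graph (hV.prod isVar_univ) (sharpF E) (sharpP E) ?_
  intro w _ k
  rw [sharpF_P, eval_X]

theorem dim_sharp {V : Set (κ → ℂ)} (hV : IsVar V) (E : Circ ν v0 f) :
    dim (sharp V E) = dim V + Fintype.card (Gt E) := by
  have h1 : img (sharpP E) (sharp V E) = prodSet V Set.univ := by
    ext w
    constructor
    · rintro ⟨v, hv, rfl⟩
      exact ⟨hv.1, Set.mem_univ _⟩
    · intro hw
      refine ⟨_, eval_sharpF_mem E hw.1, ?_⟩
      funext k
      show eval w (sharpF E (sharpP E k)) = w k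
      rw [sharpF_P, eval_X]
  have h2 : dim (prodSet V (Set.univ : Set (Gt E → ℂ))) = dim V + Fintype.card (Gt E) := by
    rw [dim_prod hV.irred isVar_univ.irred, dim_univ]
  apply le_antisymm
  · have h := dim_le_img (isVar_sharp hV E).irred (sharpF E) (sharpP E)
      fun x hx z => eq_sharpF E hx z
    rwa [h1, h2] at h
  · have h := dim_img_le (f := sharpP E) (isVar_sharp hV E).irred
    rwa [h1, h2] at h

theorem ncl_sum_le {α β : Type} [Fintype α] [Fintype β] (hR : Rel R G) (x : α → ℂ) (y : β → ℂ) :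
    ncl R G (Sum.elim x y) ≤ ncl R G x + Fintype.card β := by
  classical
  obtain ⟨T, -, hT, hTc, hTn⟩ := exists_transversal hR (ind_empty (R := R) (G := G) x)
  have h1 : ncl R G (Sum.elim x y) ≤ (T.disjSum (Finset.univ : Finset β)).card := by
    apply ncl_le_card hR
    rintro (i | i) hi
    · obtain ⟨t, ht, h2⟩ := hTc i hi
      exact ⟨Sum.inl t, by simpa using ht, h2⟩
    · exact ⟨Sum.inr i, by simp, hR.equiv.refl _⟩
  rwa [Finset.card_disjSum, hTn, Finset.card_univ] at h1

theorem base_sharp (hR : Corr R G) (hS : Shift R) {μ : Type} [Fintype μ] {c : μ → ℂ}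
    {V : Set (κ → ℂ)} (hV : Base R G c V) (E : Circ ν v0 f) (hv0 : v0 ∈ V)
    (hv0i : Ind R G v0 Finset.univ) {J : Type} [Fintype J] {g : J → ℂ}
    (hc : Ind R G (Sum.elim (Sum.elim c fun _ : Unit => ν) g) Finset.univ) :
    Base R G (Sum.elim (Sum.elim c fun _ : Unit => ν) g) (sharp V E) where
  cind := hc
  var := isVar_sharp hV.var E
  nonconst := by
    intro k a
    obtain ⟨v, hv⟩ := hV.var.nonempty
    rcases k with k | n | t
    · obtain ⟨v, hv, hva⟩ := hV.nonconst k a
      exact ⟨_, eval_sharpF_mem E (w := Sum.elim v fun _ => 0) hv, by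
        show eval _ (X (Sum.inl k)) ≠ a
        rw [eval_X]
        exact hva⟩
    · refine ⟨_, eval_sharpF_mem E (w := Sum.elim v fun _ => a + 1) hv, ?_⟩
      show eval _ (X (Sum.inr n)) ≠ a
      rw [eval_X]
      show a + 1 ≠ a
      simp
    · refine ⟨_, eval_sharpF_mem E
        (w := Sum.elim v fun _ => a + 1 - eval v (t.1.val ν)) hv, ?_⟩
      show eval _ (X (Sum.inr (Sum.inl t)) + rename Sum.inl (t.1.val ν)) ≠ a
      rw [map_add, eval_X, eval_rename]
      show a + 1 - eval v (t.1.val ν) + eval v (t.1.val ν) ≠ a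
      simp
  generic := by
    obtain ⟨m, hm, -⟩ := exists_masks hR hS hv0i (N := Gt E)
      (Sum.elim (fun t => eval v0 (t.1.val ν)) fun _ => 1) (by
        rintro (t | i)
        · exact E.good.ne t.1 t.2
        · exact one_ne_zero) (B := ∅) Set.countable_empty
    refine ⟨_, eval_sharpF_mem E (w := Sum.elim v0 m) hv0, ?_⟩
    have h1 := hm.comp (f := (Sum.map id (Sum.map id Sum.inl) :
      Cd E → κ ⊕ (Gt E ⊕ Gt E))) (Sum.map_injective.2 ⟨Function.injective_id,
        Sum.map_injective.2 ⟨Function.injective_id, Sum.inl_injective⟩⟩)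
    have h2 : (fun z => eval (Sum.elim v0 m) (sharpF E z)) = fun k : Cd E =>
        (Sum.elim v0 (Sum.elim m fun i => m i + (Sum.elim
          (fun t : E.S => eval v0 (t.1.val ν)) fun _ => 1 : Gt E → ℂ) i) :
            κ ⊕ (Gt E ⊕ Gt E) → ℂ)
          ((Sum.map id (Sum.map id Sum.inl) : Cd E → κ ⊕ (Gt E ⊕ Gt E)) k) := by
      funext z
      rcases z with a | n | t
      · show eval _ (X (Sum.inl a)) = _
        rw [eval_X]
        rfl
      · show eval _ (X (Sum.inr n)) = _
        rw [eval_X]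
        rfl
      · show eval _ (X (Sum.inr (Sum.inl t)) + rename Sum.inl (t.1.val ν)) = _
        rw [map_add, eval_X, eval_rename]
        rfl
    rw [h2]
    exact h1
  dense := by
    classical
    intro q hq
    rw [sharp_eq, mem_ideal_poly] at hq
    obtain ⟨z, hz, hqz⟩ := exists_of_not_mem hq
    obtain ⟨v, hv, m, hm, rfl⟩ := exists_elim hz
    obtain ⟨v', hv', h1, h2⟩ := hV.dense (fixR m (bind₁ (sharpF E) q))
      (not_mem_of_eval hv (by rwa [eval_fixR]))
    rw [eval_fixR] at h2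
    obtain ⟨m', hm', h4⟩ : ∃ m' : Gt E → ℂ, (∀ k, m' k ∈ G) ∧
        eval m' (fixL v' (bind₁ (sharpF E) q)) ≠ 0 := by
      by_contra hcon
      push Not at hcon
      have h3 : fixL v' (bind₁ (sharpF E) q) = 0 := by
        refine MvPolynomial.funext_set (p := fixL v' (bind₁ (sharpF E) q)) (q := 0)
          (fun _ : Gt E => G) (fun _ => hR.inf) ?_
        intro x hx
        rw [map_zero]
        exact hcon x fun i => hx i (Set.mem_univ i)
      rw [← eval_fixL, h3, map_zero] at h2
      exact h2 rfl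
    rw [eval_fixL, eval_bind] at h4
    refine ⟨_, eval_sharpF_mem E (w := Sum.elim v' m') hv', ?_, h4⟩
    -- the classes
    set z : E.S → ℂ := fun t => m' (Sum.inl t) + eval v' (t.1.val ν) with hz
    let Y : (((μ ⊕ κ) ⊕ (Unit ⊕ (J ⊕ E.S))) ⊕ Gt E) → ℂ :=
      Sum.elim (Sum.elim (Sum.elim c v') (Sum.elim (fun _ => ν) (Sum.elim g z))) m'
    let φ : ((μ ⊕ Unit) ⊕ J) ⊕ Cd E → (((μ ⊕ κ) ⊕ (Unit ⊕ (J ⊕ E.S))) ⊕ Gt E) := fun p =>
      match p with
      | Sum.inl (Sum.inl (Sum.inl m)) => Sum.inl (Sum.inl (Sum.inl m))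
      | Sum.inl (Sum.inl (Sum.inr u)) => Sum.inl (Sum.inr (Sum.inl u))
      | Sum.inl (Sum.inr j) => Sum.inl (Sum.inr (Sum.inr (Sum.inl j)))
      | Sum.inr (Sum.inl a) => Sum.inl (Sum.inl (Sum.inr a))
      | Sum.inr (Sum.inr (Sum.inl n)) => Sum.inr n
      | Sum.inr (Sum.inr (Sum.inr t)) => Sum.inl (Sum.inr (Sum.inr (Sum.inr t)))
    have hφ : (Sum.elim (Sum.elim (Sum.elim c fun _ : Unit => ν) g)
        (fun z => eval (Sum.elim v' m') (sharpF E z)) : ((μ ⊕ Unit) ⊕ J) ⊕ Cd E → ℂ) =
        fun p => Y (φ p) := by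
      funext p
      rcases p with ((m | u) | j) | a | n | t
      · rfl
      · rfl
      · rfl
      · show eval _ (X (Sum.inl a)) = _
        rw [eval_X]
        rfl
      · show eval _ (X (Sum.inr n)) = _
        rw [eval_X]
        rfl
      · show eval _ (X (Sum.inr (Sum.inl t)) + rename Sum.inl (t.1.val ν)) = _
        rw [map_add, eval_X, eval_rename]
        rfl
    rw [hφ]
    have e1 := ncl_comp_le hR.toRel Y φ
    have e2 := ncl_elim_special hR.toRel
      (Sum.elim (Sum.elim c v') (Sum.elim (fun _ : Unit => ν) (Sum.elim g z))) hm'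
    have e3 := ncl_sum_le hR.toRel (Sum.elim c v')
      (Sum.elim (fun _ : Unit => ν) (Sum.elim g z))
    have e4 : Fintype.card (Unit ⊕ (J ⊕ E.S)) = 1 + (Fintype.card J + Fintype.card E.S) := by
      rw [Fintype.card_sum, Fintype.card_sum, Fintype.card_unit]
    have e5 : Fintype.card ((μ ⊕ Unit) ⊕ J) = Fintype.card μ + 1 + Fintype.card J := by
      rw [Fintype.card_sum, Fintype.card_sum, Fintype.card_unit]
    have e6 : Fintype.card (Cd E) =
        Fintype.card κ + (Fintype.card (Gt E) + Fintype.card E.S) := by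
      rw [Fintype.card_sum, Fintype.card_sum]
    rw [dim_sharp hV.var E, e5, e6]
    have e7 : ncl R G (fun p => Y (φ p)) ≤ ncl R G Y := e1
    have e8 : ncl R G Y ≤ ncl R G
      (Sum.elim (Sum.elim c v') (Sum.elim (fun _ : Unit => ν) (Sum.elim g z))) := e2
    omega

end

end Pool.Agent.T6.H15.MH
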