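import Pool.Agent.T6.H15.MH.Data

/-!
# The coordinates of the gates
-/

set_option autoImplicit false

open MvPolynomial

namespace Pool.Agent.T6.H15.MH

open Pool.Agent.T6.H15.ZP Pool.Agent.T6.H15.MZ Pool.Agent.T6.H15.MS

variable {R : ℂ → ℂ → Prop} {G : Set ℂ}

section Defs

variable {κ : Type}

/-- the inputs of a gate -/
def Term.arg1 : Term κ → Term κ
  | Term.gate t1 _ _ => t1
  | _ => Term.zero

/-- the inputs of a gate -/
def Term.arg2 : Term κ → Term κ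
  | Term.gate _ t2 _ => t2
  | _ => Term.zero

/-- the inputs of a gate -/
def Term.arg3 : Term κ → Term κ
  | Term.gate _ _ t3 => t3
  | _ => Term.zero

variable {I : Type} {ν : ℂ} {v0 : κ → ℂ} {f : I → MvPolynomial κ ℂ} (μ : Type)
  (E : Circ ν v0 f) (j : ℕ)

/-- the indices of the pairs of parameters -/
abbrev Jx : Type := E.A ⊕ Fin j

/-- the indices of the constant coordinates -/
abbrev Cx : Type := (μ ⊕ Unit) ⊕ (Jx E j ⊕ Jx E j)

/-- the coordinates for one copy -/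
abbrev Lx : Type := Cx μ E j ⊕ Cd E

/-- the coordinate `ν` -/
def nu : Lx μ E j := Sum.inl (Sum.inl (Sum.inr ()))

open Classical in
/-- the coordinates of a term -/
noncomputable def cp : Term κ → Lx μ E j × Lx μ E j
  | Term.inp a => (Sum.inr (Sum.inl a), nu μ E j)
  | Term.const c => if h : c ∈ E.A then (Sum.inl (Sum.inr (Sum.inr (Sum.inl ⟨c, h⟩))),
      Sum.inl (Sum.inr (Sum.inl (Sum.inl ⟨c, h⟩)))) else (nu μ E j, nu μ E j)
  | Term.zero => (nu μ E j, nu μ E j)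
  | Term.gate t1 t2 t3 => if h : Term.gate t1 t2 t3 ∈ E.S then
      (Sum.inr (Sum.inr (Sum.inr ⟨_, h⟩)), Sum.inr (Sum.inr (Sum.inl (Sum.inl ⟨_, h⟩))))
      else (nu μ E j, nu μ E j)

/-- the term of a gate -/
def gtm : Gt E → Term κ
  | Sum.inl t => t.1
  | Sum.inr i => E.tm i

/-- the coordinates of the output of a gate -/
def outp : Gt E → Lx μ E j × Lx μ E j
  | Sum.inl t => (Sum.inr (Sum.inr (Sum.inr t)), Sum.inr (Sum.inr (Sum.inl (Sum.inl t))))
  | Sum.inr i => (Sum.inr (Sum.inr (Sum.inl (Sum.inr i))), Sum.inr (Sum.inr (Sum.inl (Sum.inr i))))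

/-- the eight coordinates of a gate -/
noncomputable def cp8 (n : Gt E) : Fin 8 → Lx μ E j
  | 0 => (cp μ E j (gtm E n).arg1).1
  | 1 => (cp μ E j (gtm E n).arg1).2
  | 2 => (cp μ E j (gtm E n).arg2).1
  | 3 => (cp μ E j (gtm E n).arg2).2
  | 4 => (cp μ E j (gtm E n).arg3).1
  | 5 => (cp μ E j (gtm E n).arg3).2
  | 6 => (outp μ E j n).1
  | 7 => (outp μ E j n).2

/-- the coordinates of the additional gates -/
def pad8 (q : Fin j) : Fin 8 → Cx μ E j
  | 0 => Sum.inr (Sum.inr (Sum.inl ⟨1, E.one⟩))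
  | 1 => Sum.inr (Sum.inl (Sum.inl ⟨1, E.one⟩))
  | 2 => Sum.inr (Sum.inr (Sum.inl ⟨1, E.one⟩))
  | 3 => Sum.inr (Sum.inl (Sum.inl ⟨1, E.one⟩))
  | 4 => Sum.inr (Sum.inr (Sum.inl ⟨1, E.one⟩))
  | 5 => Sum.inr (Sum.inl (Sum.inl ⟨1, E.one⟩))
  | 6 => Sum.inr (Sum.inr (Sum.inr q))
  | 7 => Sum.inr (Sum.inl (Sum.inr q))

variable {μ j}

/-- the difference of the two coordinates of a term -/
noncomputable def diff (L : Lx μ E j → ℂ) (t : Term κ) : ℂ := L (cp μ E j t).1 - L (cp μ E j t).2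

theorem ok_const {c : ℂ} (h : Ok E.A E.S (Term.const c)) : c ∈ E.A := by
  rcases h with ⟨a, h⟩ | ⟨c', hc, h⟩ | h | h
  · exact absurd h (by simp)
  · rw [Term.const.injEq] at h
    rw [h]
    exact hc
  · exact absurd h (by simp)
  · obtain ⟨t1, t2, t3, h, -⟩ := E.good.closed _ h
    exact absurd h (by simp)

theorem ok_gate {t1 t2 t3 : Term κ} (h : Ok E.A E.S (Term.gate t1 t2 t3)) :
    Term.gate t1 t2 t3 ∈ E.S := by
  rcases h with ⟨a, h⟩ | ⟨c', hc, h⟩ | h | h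
  · exact absurd h (by simp)
  · exact absurd h (by simp)
  · exact absurd h (by simp)
  · exact h

theorem diff_inp {L : Lx μ E j → ℂ} (hν : L (nu μ E j) = ν) (a : κ) :
    diff E L (Term.inp a) = L (Sum.inr (Sum.inl a)) - ν := by
  unfold diff
  rw [cp, hν]

theorem diff_const (L : Lx μ E j → ℂ) {c : ℂ} (hc : c ∈ E.A) : diff E L (Term.const c) =
    L (Sum.inl (Sum.inr (Sum.inr (Sum.inl ⟨c, hc⟩)))) -
      L (Sum.inl (Sum.inr (Sum.inl (Sum.inl ⟨c, hc⟩)))) := by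
  unfold diff
  rw [cp, dif_pos hc]

theorem diff_zero (L : Lx μ E j → ℂ) : diff E L Term.zero = 0 := by
  unfold diff
  rw [cp, sub_self]

theorem diff_gate (L : Lx μ E j → ℂ) (t : E.S) : diff E L t.1 =
    L (outp μ E j (Sum.inl t)).1 - L (outp μ E j (Sum.inl t)).2 := by
  obtain ⟨t, ht⟩ := t
  obtain ⟨t1, t2, t3, rfl, -⟩ := E.good.closed t ht
  unfold diff
  rw [cp, dif_pos ht, outp]

/-- The equation of a gate. -/
def GateEq (L : Lx μ E j → ℂ) (n : Gt E) : Prop :=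
  L (outp μ E j n).1 - L (outp μ E j n).2 =
    diff E L (gtm E n).arg1 * diff E L (gtm E n).arg2 + diff E L (gtm E n).arg3

theorem okGate_gtm (n : Gt E) : OkGate E.A E.S (gtm E n) := by
  rcases n with t | i
  · exact E.good.closed _ t.2
  · exact E.tmok i

/-- The values of the terms are determined by the equations of the gates. -/
theorem diff_val {L : Lx μ E j → ℂ} (hν : L (nu μ E j) = ν)
    (hA : ∀ a : E.A, L (Sum.inl (Sum.inr (Sum.inr (Sum.inl a)))) -
      L (Sum.inl (Sum.inr (Sum.inl (Sum.inl a)))) = a)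
    (hG : ∀ t : E.S, GateEq E L (Sum.inl t)) (t : Term κ) (ht : Ok E.A E.S t) :
    diff E L t = eval (fun a => L (Sum.inr (Sum.inl a))) (t.val ν) := by
  induction t with
  | inp a => rw [diff_inp E hν, Term.val, map_sub, eval_X, eval_C]
  | const c =>
    rw [diff_const E L (ok_const E ht), Term.val, eval_C]
    exact hA ⟨c, ok_const E ht⟩
  | zero => rw [diff_zero, Term.val, map_zero]
  | gate t1 t2 t3 h1 h2 h3 =>
    have hS := ok_gate E ht
    obtain ⟨u1, u2, u3, hu, k1, k2, k3⟩ := E.good.closed _ hS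
    rw [Term.gate.injEq] at hu
    obtain ⟨rfl, rfl, rfl⟩ := hu
    have h4 := hG ⟨_, hS⟩
    unfold GateEq at h4
    rw [← diff_gate] at h4
    rw [h4, Term.val, map_add, map_mul, ← h1 k1, ← h2 k2, ← h3 k3]
    rfl

/-- The values of the terms on the graph. -/
theorem diff_sharp {V : Set (κ → ℂ)} {L : Lx μ E j → ℂ} (hν : L (nu μ E j) = ν)
    (hA : ∀ a : E.A, L (Sum.inl (Sum.inr (Sum.inr (Sum.inl a)))) -
      L (Sum.inl (Sum.inr (Sum.inl (Sum.inl a)))) = a)
    (hL : (fun k => L (Sum.inr k)) ∈ sharp V E) (t : Term κ) (ht : Ok E.A E.S t) :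
    diff E L t = eval (fun a => L (Sum.inr (Sum.inl a))) (t.val ν) := by
  rcases t with a | c | _ | ⟨t1, t2, t3⟩
  · rw [diff_inp E hν, Term.val, map_sub, eval_X, eval_C]
  · rw [diff_const E L (ok_const E ht), Term.val, eval_C]
    exact hA ⟨c, ok_const E ht⟩
  · rw [diff_zero, Term.val, map_zero]
  · have hS := ok_gate E ht
    have h1 := diff_gate E L ⟨_, hS⟩
    rw [outp] at h1
    have h2 := hL.2 ⟨_, hS⟩
    dsimp only at h1 h2
    rw [h1, h2]
    ring

theorem gateEq_sharp {V : Set (κ → ℂ)} {L : Lx μ E j → ℂ} (hν : L (nu μ E j) = ν)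
    (hA : ∀ a : E.A, L (Sum.inl (Sum.inr (Sum.inr (Sum.inl a)))) -
      L (Sum.inl (Sum.inr (Sum.inl (Sum.inl a)))) = a)
    (hL : (fun k => L (Sum.inr k)) ∈ sharp V E) (hf : ∀ i, f i ∈ idealOf V) (n : Gt E) :
    GateEq E L n := by
  have hd := diff_sharp E hν hA hL
  obtain ⟨t1, t2, t3, h1, k1, k2, k3⟩ := okGate_gtm E n
  unfold GateEq
  rw [h1, Term.arg1, Term.arg2, Term.arg3, hd _ k1, hd _ k2, hd _ k3, ← map_mul, ← map_add]
  have h2 : t1.val ν * t2.val ν + t3.val ν = (gtm E n).val ν := by rw [h1, Term.val]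
  rw [h2]
  rcases n with t | i
  · rw [← diff_gate E L t, hd t.1 (Or.inr (Or.inr (Or.inr t.2)))]
    rfl
  · rw [outp, sub_self]
    show 0 = eval _ ((E.tm i).val ν)
    rw [E.tmv i]
    exact (mem_idealOf.1 (hf i) _ hL.1).symm

end Defs

/-! ### The map of coordinates -/

section Rho

variable {κ I μ T ι : Type} {ν : ℂ} {v0 : κ → ℂ} {f : I → MvPolynomial κ ℂ}

/-- the coordinates for the copy `t` -/
def emb {E : Circ ν v0 f} {j : ℕ} (β : Cx μ E j → ι) (copy : T → Cd E → ι) (t : T) :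
    Lx μ E j → ι := Sum.elim β (copy t)

/-- the coordinates of all gates -/
noncomputable def rho {E : Circ ν v0 f} {j : ℕ} (β : Cx μ E j → ι) (copy : T → Cd E → ι) :
    ((T × Gt E) ⊕ Fin j) × Fin 8 → ι
  | (Sum.inl (t, n), l) => emb β copy t (cp8 μ E j n l)
  | (Sum.inr q, l) => β (pad8 μ E j q l)

variable {E : Circ ν v0 f} {j : ℕ} {β : Cx μ E j → ι} {copy : T → Cd E → ι}

/-- The equations of the gates. -/
theorem mem_hyp_iff (y : ι → ℂ) : (fun z => y (rho β copy z)) ∈ hyp ((T × Gt E) ⊕ Fin j) ↔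
    (∀ t n, GateEq E (fun l => y (emb β copy t l)) n) ∧
    ∀ q : Fin j, y (β (Sum.inr (Sum.inr (Sum.inr q)))) - y (β (Sum.inr (Sum.inl (Sum.inr q)))) =
      (y (β (Sum.inr (Sum.inr (Sum.inl ⟨1, E.one⟩)))) -
        y (β (Sum.inr (Sum.inl (Sum.inl ⟨1, E.one⟩))))) *
      (y (β (Sum.inr (Sum.inr (Sum.inl ⟨1, E.one⟩)))) -
        y (β (Sum.inr (Sum.inl (Sum.inl ⟨1, E.one⟩))))) +
      (y (β (Sum.inr (Sum.inr (Sum.inl ⟨1, E.one⟩)))) -
        y (β (Sum.inr (Sum.inl (Sum.inl ⟨1, E.one⟩))))) := by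
  constructor
  · intro h
    exact ⟨fun t n => h (Sum.inl (t, n)), fun q => h (Sum.inr q)⟩
  · rintro ⟨h1, h2⟩ (⟨t, n⟩ | q)
    · exact h1 t n
    · exact h2 q

end Rho

end Pool.Agent.T6.H15.MH
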