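import Pool.Agent.T6.H15.MZ.J

/-!
# Translations are not given by isogenies
-/

set_option autoImplicit false

open UpperHalfPlane ModularForm Function H294ZP Filter Topology

namespace Pool.Agent.T6.H15.MH

open Pool.Agent.T6.H15.MZ

/-- The zeros of a holomorphic function on the upper half plane. -/
theorem countable_zeros {h : ℂ → ℂ} (hd : DifferentiableOn ℂ h {z | 0 < z.im})
    (h0 : ∃ z : ℂ, 0 < z.im ∧ h z ≠ 0) : {z : ℂ | 0 < z.im ∧ h z = 0}.Countable := by
  have hopen : IsOpen {z : ℂ | 0 < z.im} := isOpen_lt continuous_const Complex.continuous_im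
  have hpre : IsPreconnected {z : ℂ | 0 < z.im} := (convex_halfSpace_im_gt 0).isPreconnected
  have han : AnalyticOnNhd ℂ h {z | 0 < z.im} := hd.analyticOnNhd hopen
  have hdisc : DiscreteTopology {z : ℂ | 0 < z.im ∧ h z = 0} := by
    rw [discreteTopology_subtype_iff]
    rintro z0 ⟨hz0, hz0'⟩
    by_contra hne
    have hfreq : ∃ᶠ z in 𝓝[≠] z0, h z = 0 := by
      intro hev
      apply hne
      rw [← empty_mem_iff_bot, mem_inf_principal]
      filter_upwards [hev] with z hz hz'
      exact hz hz'.2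
    obtain ⟨z1, hz1, hz1'⟩ := h0
    exact hz1' (han.eqOn_zero_of_preconnected_of_frequently_eq_zero hpre hz0 hfreq hz1)
  have h1 : Countable {z : ℂ | 0 < z.im ∧ h z = 0} :=
    TopologicalSpace.separableSpace_iff_countable.1 inferInstance
  exact h1

/-- the points `n i` -/
def pt (n : ℕ) : ℍ := ⟨⟨0, n + 1⟩, by show (0 : ℝ) < n + 1; positivity⟩

theorem norm_qq (τ : ℍ) : ‖qq 1 τ‖ = Real.exp (-(2 * Real.pi * τ.im)) := by
  unfold qq
  rw [Complex.norm_exp]
  congr 1
  have h1 : (2 * Real.pi * Complex.I * (τ : ℂ) / ((1 : ℕ) : ℂ)) =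
      ((2 * Real.pi : ℝ) : ℂ) * (Complex.I * τ) := by
    push_cast
    ring
  rw [h1, Complex.re_ofReal_mul, Complex.I_mul_re]
  have h2 : (τ : ℂ).im = τ.im := rfl
  rw [h2]
  ring

theorem tendsto_atImInfty_of_im {u : ℕ → ℍ} (h : Tendsto (fun n => (u n).im) atTop atTop) :
    Tendsto u atTop atImInfty := by
  unfold atImInfty
  rw [tendsto_comap_iff]
  exact h

theorem eq_of_growth {a d : ℤ} {b : ℤ} (ha : 0 < a) (hd : 0 < d) {D : ℂ}
    (h : ∀ τ w : ℍ, (w : ℂ) * d = a * τ + b → jj w = jj τ + D) : a = d := by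
  have ha' : (0 : ℝ) < a := by exact_mod_cast ha
  have hd' : (0 : ℝ) < d := by exact_mod_cast hd
  have hdc : (d : ℂ) ≠ 0 := by exact_mod_cast hd.ne'
  -- the points
  have him : ∀ n : ℕ, (((a : ℂ) * (pt n : ℂ) + b) / d).im = a * (n + 1) / d := by
    intro n
    have h1 : ((a : ℂ) * (pt n : ℂ) + b) / d =
        ((a / d : ℝ) : ℂ) * (pt n : ℂ) + ((b / d : ℝ) : ℂ) := by
      push_cast
      field_simp
    rw [h1, Complex.add_im, Complex.im_ofReal_mul, Complex.ofReal_im, add_zero]
    have h2 : (pt n : ℂ).im = n + 1 := rfl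
    rw [h2]
    ring
  let w : ℕ → ℍ := fun n => ⟨((a : ℂ) * (pt n : ℂ) + b) / d, by rw [him]; positivity⟩
  have hwim : ∀ n, (w n).im = a * (n + 1) / d := him
  have hpim : ∀ n, (pt n).im = n + 1 := fun n => rfl
  have hn : Tendsto (fun n : ℕ => (n : ℝ) + 1) atTop atTop :=
    tendsto_atTop_add_const_right _ _ tendsto_natCast_atTop_atTop
  have hp : Tendsto pt atTop atImInfty := by
    apply tendsto_atImInfty_of_im
    simp only [hpim]
    exact hn
  have hw : Tendsto w atTop atImInfty := by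
    apply tendsto_atImInfty_of_im
    simp only [hwim]
    have h1 := hn.const_mul_atTop (show (0 : ℝ) < a / d by positivity)
    refine h1.congr fun n => ?_
    ring
  have e1 : Tendsto (fun n => qq 1 (pt n) * jj (pt n)) atTop (𝓝 1) := tendsto_qj.comp hp
  have e2 : Tendsto (fun n => qq 1 (w n) * jj (w n)) atTop (𝓝 1) := tendsto_qj.comp hw
  have e3 : Tendsto (fun n => qq 1 (w n)) atTop (𝓝 0) := tendsto_q.comp hw
  have e4 : Tendsto (fun n => qq 1 (w n) * jj (pt n)) atTop (𝓝 1) := by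
    have h1 := e2.sub (e3.mul_const D)
    rw [zero_mul, sub_zero] at h1
    refine h1.congr fun n => ?_
    rw [h (pt n) (w n) (by
      show ((a : ℂ) * (pt n : ℂ) + b) / d * d = _
      rw [div_mul_cancel₀ _ hdc])]
    ring
  have e5 : Tendsto (fun n => (qq 1 (w n) * jj (pt n)) / (qq 1 (pt n) * jj (pt n))) atTop
      (𝓝 (1 / 1)) := e4.div e1 one_ne_zero
  rw [div_one] at e5
  have e6 : Tendsto (fun n => ‖(qq 1 (w n) * jj (pt n)) / (qq 1 (pt n) * jj (pt n))‖) atTop
      (𝓝 1) := by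
    have := e5.norm
    rwa [norm_one] at this
  set c : ℝ := 2 * Real.pi * (1 - a / d) with hc
  have e7 : Tendsto (fun n : ℕ => Real.exp (c * (n + 1))) atTop (𝓝 1) := by
    refine e6.congr' ?_
    have h1 : ∀ᶠ n in atTop, qq 1 (pt n) * jj (pt n) ≠ 0 := e1.eventually_ne one_ne_zero
    filter_upwards [h1] with n hn
    have h2 : jj (pt n) ≠ 0 := right_ne_zero_of_mul hn
    rw [mul_div_mul_right _ _ h2, norm_div, norm_qq, norm_qq, ← Real.exp_sub, hwim, hpim, hc]
    congr 1
    field_simp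
    ring
  have e8 : Tendsto (fun n : ℕ => c * (n + 1)) atTop (𝓝 0) := by
    have h1 := e7.log one_ne_zero
    rw [Real.log_one] at h1
    refine h1.congr fun n => ?_
    rw [Real.log_exp]
  have e9 : Tendsto (fun n : ℕ => c * ((n + 1 : ℕ) + 1) - c * (n + 1)) atTop (𝓝 (0 - 0)) := by
    refine Tendsto.sub ?_ e8
    exact (tendsto_add_atTop_iff_nat 1).2 e8
  have e10 : c = 0 := by
    rw [sub_zero] at e9
    have h1 : Tendsto (fun _ : ℕ => c) atTop (𝓝 0) := by
      refine e9.congr fun n => ?_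
      push_cast
      ring
    exact tendsto_nhds_unique tendsto_const_nhds h1
  rw [hc] at e10
  have e11 : (1 : ℝ) - a / d = 0 := by
    rcases mul_eq_zero.1 e10 with h1 | h1
    · exact absurd h1 (by positivity)
    · exact h1
  rw [sub_eq_zero, eq_div_iff hd'.ne', one_mul] at e11
  exact_mod_cast e11.symm

theorem shift_zero {a d : ℤ} {b : ℤ} (ha : 0 < a) (hd : 0 < d) {D : ℂ}
    (h : ∀ τ w : ℍ, (w : ℂ) * d = a * τ + b → jj w = jj τ + D) : D = 0 := by
  have had := eq_of_growth ha hd h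
  subst had
  have ha' : (a : ℝ) ≠ 0 := by exact_mod_cast ha.ne'
  have hac : (a : ℂ) ≠ 0 := by exact_mod_cast ha.ne'
  have hit : ∀ n : ℕ, ∀ τ w : ℍ, (w : ℂ) * a = a * τ + n * b → jj w = jj τ + n * D := by
    intro n
    induction n with
    | zero =>
      intro τ w hw
      have h1 : w = τ := by
        apply UpperHalfPlane.ext
        apply mul_right_cancel₀ hac
        rw [hw]
        push_cast
        ring
      rw [h1]
      push_cast
      ring
    | succ n ih =>
      intro τ w hw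
      let v : ℍ := ⟨(τ : ℂ) + ((n * b / a : ℝ) : ℂ), by
        rw [Complex.add_im, Complex.ofReal_im, add_zero]
        exact τ.2⟩
      have hv : (v : ℂ) = τ + n * b / a := by
        show (τ : ℂ) + ((n * b / a : ℝ) : ℂ) = _
        push_cast
        ring
      have h1 := ih τ v (by
        rw [hv]
        field_simp)
      have h2 := h v w (by
        rw [hw, hv]
        push_cast
        field_simp
        ring)
      rw [h2, h1]
      push_cast
      ring
  obtain ⟨n, rfl⟩ : ∃ n : ℕ, a = n := ⟨a.toNat, by omega⟩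
  let w : ℍ := ⟨(I : ℂ) + ((b : ℝ) : ℂ), by
    rw [Complex.add_im, Complex.ofReal_im, add_zero]
    exact UpperHalfPlane.I.2⟩
  have hw : (w : ℂ) = I + b := by
    show (I : ℂ) + ((b : ℝ) : ℂ) = _
    push_cast
    ring
  have h1 := hit n I w (by
    rw [hw]
    push_cast
    ring)
  have h2 : jj w = jj I := inv_jj 1 b 0 1 (by norm_num) I w (by
    rw [hw]
    push_cast
    ring)
  rw [h2] at h1
  have h3 : (n : ℂ) * D = 0 := by linear_combination -h1
  rcases mul_eq_zero.1 h3 with h4 | h4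
  · exfalso
    apply hac
    exact_mod_cast h4
  · exact h4

/-- **Translations are not isogenies.** -/
theorem shift_isog {D : ℂ} (hD : D ≠ 0) : {x | Isog x (x + D)}.Countable := by
  have h1 : {x | Isog x (x + D)} ⊆ ⋃ p : ℤ × ℤ × ℤ,
      jj '' {τ : ℍ | 0 < p.1 ∧ 0 < p.2.2 ∧ ∃ w : ℍ, (w : ℂ) * p.2.2 = p.1 * τ + p.2.1 ∧
        jj w = jj τ + D} := by
    intro x hx
    obtain ⟨τ, rfl⟩ := jj_surjective x
    obtain ⟨w, a, b, d, ha, hd, hw, h2⟩ := isog_of_jj hx rfl
    exact Set.mem_iUnion.2 ⟨(a, b, d), τ, ⟨ha, hd, w, hw, h2.symm⟩, rfl⟩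
  refine (Set.countable_iUnion fun p => ?_).mono h1
  obtain ⟨a, b, d⟩ := p
  refine Set.Countable.image ?_ _
  by_cases ha : 0 < a
  swap
  · convert Set.countable_empty
    ext τ
    simp [ha]
  by_cases hd : 0 < d
  swap
  · convert Set.countable_empty
    ext τ
    simp [hd]
  have ha' : (0 : ℝ) < a := by exact_mod_cast ha
  have hd' : (0 : ℝ) < d := by exact_mod_cast hd
  have hdc : (d : ℂ) ≠ 0 := by exact_mod_cast hd.ne'
  have him : ∀ z : ℂ, (((a : ℂ) * z + b) / d).im = a / d * z.im := by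
    intro z
    have h1 : ((a : ℂ) * z + b) / d = ((a / d : ℝ) : ℂ) * z + ((b / d : ℝ) : ℂ) := by
      push_cast
      field_simp
    rw [h1, Complex.add_im, Complex.im_ofReal_mul, Complex.ofReal_im, add_zero]
  let g : ℂ → ℂ := fun z => (jj ∘ ofComplex) (((a : ℂ) * z + b) / d) - (jj ∘ ofComplex) z - D
  have hg : DifferentiableOn ℂ g {z | 0 < z.im} := by
    have hj : DifferentiableOn ℂ (jj ∘ ofComplex) {z | 0 < z.im} := hol_jj
    refine DifferentiableOn.sub_const (DifferentiableOn.sub ?_ hj) D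
    refine hj.comp (f := fun z : ℂ => ((a : ℂ) * z + b) / d) (s := {z | 0 < z.im}) ?_ ?_
    · exact (((differentiable_id.const_mul (a : ℂ)).add_const (b : ℂ)).div_const
        (d : ℂ)).differentiableOn
    · intro z hz
      show 0 < (((a : ℂ) * z + b) / d).im
      rw [him]
      exact mul_pos (div_pos ha' hd') hz
  have hgτ : ∀ τ w : ℍ, (w : ℂ) * d = a * τ + b → g τ = jj w - jj τ - D := by
    intro τ w hw
    show jj (ofComplex (((a : ℂ) * τ + b) / d)) - jj (ofComplex τ) - D = _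
    rw [← hw, mul_div_cancel_right₀ _ hdc, ofComplex_apply, ofComplex_apply]
  have hne : ∃ z : ℂ, 0 < z.im ∧ g z ≠ 0 := by
    by_contra hcon
    push Not at hcon
    apply hD
    refine shift_zero ha hd (b := b) fun τ w hw => ?_
    have h2 := hcon τ τ.2
    rw [hgτ τ w hw] at h2
    linear_combination h2
  have h3 := countable_zeros hg hne
  refine (h3.preimage_of_injOn (f := fun τ : ℍ => (τ : ℂ))
    (fun a _ b _ h => UpperHalfPlane.ext h)).mono ?_
  rintro τ ⟨-, -, w, hw, h4⟩
  refine ⟨τ.2, ?_⟩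
  rw [hgτ τ w hw, h4]
  ring

end Pool.Agent.T6.H15.MH
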