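import Pool.Agent.T6.H15.MS.Conv

/-!
# Masks
-/

set_option autoImplicit false

open MvPolynomial

namespace Pool.Agent.T6.H15.MH

open Pool.Agent.T6.H15.ZP Pool.Agent.T6.H15.MZ

variable {R : ℂ → ℂ → Prop} {G : Set ℂ}

/-- Translations are not contained in `R`. -/
def Shift (R : ℂ → ℂ → Prop) : Prop := ∀ D : ℂ, D ≠ 0 → {x | R x (x + D)}.Countable

theorem exists_not_mem_countable {F : Set ℂ} (hF : F.Countable) : ∃ v, v ∉ F := by
  by_contra hcon
  push Not at hcon
  exact not_countable_complex (hF.mono fun t _ => hcon t)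

theorem exists_mask (hR : Corr R G) (hS : Shift R) {F : Set ℂ} (hF : F.Countable) {D : ℂ}
    (hD : D ≠ 0) {B : Set ℂ} (hB : B.Countable) : ∃ v : ℂ, (v ∉ G ∧ v ∉ B) ∧
      (v + D ∉ G ∧ v + D ∉ B) ∧ ¬ R v (v + D) ∧ ∀ f ∈ F, ¬ R f v ∧ ¬ R f (v + D) := by
  have hinj : Function.Injective fun v : ℂ => v + D := add_left_injective D
  have h1 : ((G ∪ B) ∪ (fun v : ℂ => v + D) ⁻¹' (G ∪ B) ∪ {v | R v (v + D)} ∪
      ((⋃ f ∈ F, {v | R f v}) ∪ ⋃ f ∈ F, (fun v : ℂ => v + D) ⁻¹' {v | R f v})).Countable := by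
    refine (((hR.count.union hB).union ((hR.count.union hB).preimage_of_injOn hinj.injOn)).union
      (hS D hD)).union (Set.Countable.union (Set.Countable.biUnion hF fun f _ => hR.cls f)
        (Set.Countable.biUnion hF fun f _ => (hR.cls f).preimage_of_injOn hinj.injOn))
  obtain ⟨v, hv⟩ := exists_not_mem_countable h1
  simp only [Set.mem_union, Set.mem_preimage, Set.mem_iUnion, Set.mem_ofPred_eq, not_or,
    not_exists] at hv
  obtain ⟨⟨⟨⟨h2, h3⟩, h4, h5⟩, h6⟩, h7, h8⟩ := hv
  exact ⟨v, ⟨h2, h3⟩, ⟨h4, h5⟩, h6, fun f hf => ⟨h7 f hf, h8 f hf⟩⟩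

theorem exists_masks (hR : Corr R G) (hS : Shift R) {σ N : Type} [Fintype σ] [Fintype N]
    {x : σ → ℂ} (hx : Ind R G x Finset.univ) (D : N → ℂ) (hD : ∀ i, D i ≠ 0) {B : Set ℂ}
    (hB : B.Countable) : ∃ g : N → ℂ,
      Ind R G (Sum.elim x (Sum.elim g fun i => g i + D i)) Finset.univ ∧
        ∀ i, g i ∉ B ∧ g i + D i ∉ B := by
  classical
  have main : ∀ T : Finset N, ∃ g : N → ℂ, (∀ i ∈ T, (g i ∉ G ∧ g i ∉ B) ∧
      (g i + D i ∉ G ∧ g i + D i ∉ B) ∧ ¬ R (g i) (g i + D i) ∧
        ∀ s, ¬ R (x s) (g i) ∧ ¬ R (x s) (g i + D i)) ∧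
      ∀ i ∈ T, ∀ j ∈ T, i ≠ j → ¬ R (g i) (g j) ∧ ¬ R (g i) (g j + D j) ∧
        ¬ R (g i + D i) (g j + D j) := by
    intro T
    induction T using Finset.induction_on with
    | empty => exact ⟨fun _ => 0, by simp, by simp⟩
    | insert i T hi ih =>
      obtain ⟨g, h1, h2⟩ := ih
      obtain ⟨v, h3, h4, h5, h6⟩ := exists_mask hR hS
        (F := Set.range x ∪ (Set.range g ∪ Set.range fun i => g i + D i))
        ((Set.countable_range _).union ((Set.countable_range _).union (Set.countable_range _)))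
        (hD i) hB
      have hne : ∀ j ∈ T, j ≠ i := fun j hj h => hi (h ▸ hj)
      have hsame : ∀ j ∈ T, Function.update g i v j = g j := fun j hj =>
        Function.update_of_ne (hne j hj) _ _
      have hself : Function.update g i v i = v := Function.update_self _ _ _
      refine ⟨Function.update g i v, ?_, ?_⟩
      · intro j hj
        rcases Finset.mem_insert.1 hj with rfl | hj
        · rw [hself]
          exact ⟨h3, h4, h5, fun s => h6 _ (Or.inl ⟨s, rfl⟩)⟩
        · rw [hsame j hj]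
          exact h1 j hj
      · intro j hj k hk hjk
        rcases Finset.mem_insert.1 hj with hj | hj <;> rcases Finset.mem_insert.1 hk with hk | hk
        · exact absurd (hj.trans hk.symm) hjk
        · rw [hj, hself, hsame k hk]
          have h7 := h6 (g k) (Or.inr (Or.inl ⟨k, rfl⟩))
          have h8 := h6 (g k + D k) (Or.inr (Or.inr ⟨k, rfl⟩))
          exact ⟨fun h => h7.1 (hR.equiv.symm h), fun h => h8.1 (hR.equiv.symm h),
            fun h => h8.2 (hR.equiv.symm h)⟩
        · rw [hk, hself, hsame j hj]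
          have h7 := h6 (g j) (Or.inr (Or.inl ⟨j, rfl⟩))
          have h8 := h6 (g j + D j) (Or.inr (Or.inr ⟨j, rfl⟩))
          exact ⟨h7.1, h7.2, h8.2⟩
        · rw [hsame j hj, hsame k hk]
          exact h2 j hj k hk hjk
  obtain ⟨g, h1, h2⟩ := main Finset.univ
  have h1' := fun i => h1 i (Finset.mem_univ i)
  have h2' := fun i j => h2 i (Finset.mem_univ i) j (Finset.mem_univ j)
  refine ⟨g, ⟨?_, ?_⟩, fun i => ⟨(h1' i).1.2, (h1' i).2.1.2⟩⟩
  · rintro (s | i | i) -
    · exact hx.1 s (Finset.mem_univ s)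
    · exact (h1' i).1.1
    · exact (h1' i).2.1.1
  · rintro (s | i | i) - (t | j | j) - hij
    · rw [hx.2 s (Finset.mem_univ s) t (Finset.mem_univ t) hij]
    · exact absurd hij ((h1' j).2.2.2 s).1
    · exact absurd hij ((h1' j).2.2.2 s).2
    · exact absurd (hR.equiv.symm hij) ((h1' i).2.2.2 t).1
    · by_cases h : i = j
      · rw [h]
      · exact absurd hij (h2' i j h).1
    · by_cases h : i = j
      · subst h
        exact absurd hij (h1' i).2.2.1
      · exact absurd hij (h2' i j h).2.1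
    · exact absurd (hR.equiv.symm hij) ((h1' i).2.2.2 t).2
    · by_cases h : i = j
      · subst h
        exact absurd (hR.equiv.symm hij) (h1' i).2.2.1
      · exact absurd (hR.equiv.symm hij) (h2' j i (Ne.symm h)).2.1
    · by_cases h : i = j
      · rw [h]
      · exact absurd hij (h2' i j h).2.2

end Pool.Agent.T6.H15.MH
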