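import Pool.Agent.T6.H15.MS.Circ

/-!
# Circuits with one kind of gates
-/

set_option autoImplicit false

open MvPolynomial

namespace Pool.Agent.T6.H15.MH

open Pool.Agent.T6.H15.ZP Pool.Agent.T6.H15.MZ

/-- Terms. -/
inductive Term (κ : Type) : Type
  | inp (a : κ) : Term κ
  | const (c : ℂ) : Term κ
  | zero : Term κ
  | gate (t1 t2 t3 : Term κ) : Term κ

variable {κ : Type}

/-- The value of a term. -/
noncomputable def Term.val (ν : ℂ) : Term κ → MvPolynomial κ ℂ
  | Term.inp a => X a - C ν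
  | Term.const c => C c
  | Term.zero => 0
  | Term.gate t1 t2 t3 => t1.val ν * t2.val ν + t3.val ν

/-- Terms which can be used as inputs. -/
def Ok (A : Set ℂ) (S : Set (Term κ)) (t : Term κ) : Prop :=
  (∃ a, t = Term.inp a) ∨ (∃ c ∈ A, t = Term.const c) ∨ t = Term.zero ∨ t ∈ S

theorem Ok.mono {A A' : Set ℂ} {S S' : Set (Term κ)} {t : Term κ} (h : Ok A S t) (hA : A ⊆ A')
    (hS : S ⊆ S') : Ok A' S' t := by
  rcases h with h | ⟨c, hc, h⟩ | h | h
  · exact Or.inl h
  · exact Or.inr (Or.inl ⟨c, hA hc, h⟩)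
  · exact Or.inr (Or.inr (Or.inl h))
  · exact Or.inr (Or.inr (Or.inr (hS h)))

/-- A gate whose inputs can be used. -/
def OkGate (A : Set ℂ) (S : Set (Term κ)) (t : Term κ) : Prop :=
  ∃ t1 t2 t3, t = Term.gate t1 t2 t3 ∧ Ok A S t1 ∧ Ok A S t2 ∧ Ok A S t3

theorem OkGate.mono {A A' : Set ℂ} {S S' : Set (Term κ)} {t : Term κ} (h : OkGate A S t)
    (hA : A ⊆ A') (hS : S ⊆ S') : OkGate A' S' t := by
  obtain ⟨t1, t2, t3, h, h1, h2, h3⟩ := h
  exact ⟨t1, t2, t3, h, h1.mono hA hS, h2.mono hA hS, h3.mono hA hS⟩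

/-- Circuits all of whose values are different from zero at `v0`. -/
structure Good (ν : ℂ) (v0 : κ → ℂ) (A : Set ℂ) (S : Set (Term κ)) : Prop where
  finA : A.Finite
  zero : (0 : ℂ) ∉ A
  finS : S.Finite
  closed : ∀ t ∈ S, OkGate A S t
  ne : ∀ t ∈ S, eval v0 (t.val ν) ≠ 0

variable {ν : ℂ} {v0 : κ → ℂ}

theorem Good.empty : Good ν v0 (∅ : Set ℂ) (∅ : Set (Term κ)) :=
  ⟨Set.finite_empty, fun h => h, Set.finite_empty, fun _ h => h.elim, fun _ h => h.elim⟩

theorem Good.union {A A' : Set ℂ} {S S' : Set (Term κ)} (h : Good ν v0 A S)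
    (h' : Good ν v0 A' S') : Good ν v0 (A ∪ A') (S ∪ S') := by
  refine ⟨h.finA.union h'.finA, ?_, h.finS.union h'.finS, ?_, ?_⟩
  · rintro (h1 | h1)
    · exact h.zero h1
    · exact h'.zero h1
  · rintro t (ht | ht)
    · exact (h.closed t ht).mono Set.subset_union_left Set.subset_union_left
    · exact (h'.closed t ht).mono Set.subset_union_right Set.subset_union_right
  · rintro t (ht | ht)
    · exact h.ne t ht
    · exact h'.ne t ht

theorem Good.iUnion {I : Type} [Finite I] {A : I → Set ℂ} {S : I → Set (Term κ)}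
    (h : ∀ i, Good ν v0 (A i) (S i)) : Good ν v0 (⋃ i, A i) (⋃ i, S i) := by
  refine ⟨Set.finite_iUnion fun i => (h i).finA, ?_, Set.finite_iUnion fun i => (h i).finS,
    ?_, ?_⟩
  · intro h1
    obtain ⟨i, hi⟩ := Set.mem_iUnion.1 h1
    exact (h i).zero hi
  · intro t ht
    obtain ⟨i, hi⟩ := Set.mem_iUnion.1 ht
    exact ((h i).closed t hi).mono (Set.subset_iUnion _ i) (Set.subset_iUnion _ i)
  · intro t ht
    obtain ⟨i, hi⟩ := Set.mem_iUnion.1 ht
    exact (h i).ne t hi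

theorem Good.ins {A : Set ℂ} {S : Set (Term κ)} (h : Good ν v0 A S) {t : Term κ}
    (ht : OkGate A S t) (hne : eval v0 (t.val ν) ≠ 0) : Good ν v0 A (insert t S) := by
  refine ⟨h.finA, h.zero, h.finS.insert t, ?_, ?_⟩
  · rintro t' (rfl | ht')
    · exact ht.mono subset_rfl (Set.subset_insert _ _)
    · exact (h.closed t' ht').mono subset_rfl (Set.subset_insert _ _)
  · rintro t' (rfl | ht')
    · exact hne
    · exact h.ne t' ht'

theorem Good.addConst {A : Set ℂ} {S : Set (Term κ)} (h : Good ν v0 A S) {c : ℂ} (hc : c ≠ 0) :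
    Good ν v0 (insert c A) S := by
  refine ⟨h.finA.insert c, ?_, h.finS, ?_, h.ne⟩
  · rintro (h1 | h1)
    · exact hc h1.symm
    · exact h.zero h1
  · intro t ht
    exact (h.closed t ht).mono (Set.subset_insert _ _) subset_rfl

/-- Polynomials which can be computed. -/
def Cmp (ν : ℂ) (v0 : κ → ℂ) (f : MvPolynomial κ ℂ) : Prop :=
  ∃ (A : Set ℂ) (S : Set (Term κ)) (t : Term κ), Good ν v0 A S ∧ Ok A S t ∧ t.val ν = f

theorem Cmp.inp (a : κ) : Cmp ν v0 (X a - C ν) :=
  ⟨∅, ∅, Term.inp a, Good.empty, Or.inl ⟨a, rfl⟩, by rw [Term.val]⟩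

theorem Cmp.const {c : ℂ} (hc : c ≠ 0) : Cmp ν v0 (C c) :=
  ⟨_, ∅, Term.const c, Good.empty.addConst hc, Or.inr (Or.inl ⟨c, Set.mem_insert _ _, rfl⟩),
    by rw [Term.val]⟩

theorem Cmp.zero : Cmp ν v0 (0 : MvPolynomial κ ℂ) :=
  ⟨∅, ∅, Term.zero, Good.empty, Or.inr (Or.inr (Or.inl rfl)), by rw [Term.val]⟩

theorem Cmp.gate {f g h : MvPolynomial κ ℂ} (hf : Cmp ν v0 f) (hg : Cmp ν v0 g)
    (hh : Cmp ν v0 h) (hne : eval v0 (f * g + h) ≠ 0) : Cmp ν v0 (f * g + h) := by
  obtain ⟨A1, S1, t1, a1, b1, rfl⟩ := hf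
  obtain ⟨A2, S2, t2, a2, b2, rfl⟩ := hg
  obtain ⟨A3, S3, t3, a3, b3, rfl⟩ := hh
  have hv : (Term.gate t1 t2 t3).val ν = t1.val ν * t2.val ν + t3.val ν := by rw [Term.val]
  refine ⟨_, _, Term.gate t1 t2 t3, ((a1.union a2).union a3).ins
    ⟨t1, t2, t3, rfl, b1.mono ?_ ?_, b2.mono ?_ ?_, b3.mono ?_ ?_⟩ ?_,
    Or.inr (Or.inr (Or.inr (Set.mem_insert _ _))), hv⟩
  · exact Set.subset_union_left.trans Set.subset_union_left
  · exact Set.subset_union_left.trans Set.subset_union_left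
  · exact Set.subset_union_right.trans Set.subset_union_left
  · exact Set.subset_union_right.trans Set.subset_union_left
  · exact Set.subset_union_right
  · exact Set.subset_union_right
  · rw [hv]
    exact hne

/-- Change of the variables. -/
noncomputable def sh (ν : ℂ) : MvPolynomial κ ℂ →ₐ[ℂ] MvPolynomial κ ℂ :=
  bind₁ fun a => X a - C ν

theorem sh_surj (f : MvPolynomial κ ℂ) : sh ν (bind₁ (fun a => X a + C ν) f) = f := by
  unfold sh
  rw [bind₁_bind₁]
  have h1 : (fun i : κ => bind₁ (fun a : κ => (X a - C ν : MvPolynomial κ ℂ))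
      (X i + C ν : MvPolynomial κ ℂ)) = X := by
    funext i
    rw [map_add, bind₁_X_right, bind₁_C_right]
    ring
  rw [h1, bind₁_X_left]
  rfl

theorem eval_sh_monomial (hv : ∀ a, v0 a ≠ ν) {c : ℂ} (hc : c ≠ 0) (m : κ →₀ ℕ) :
    eval v0 (sh ν (monomial m c)) ≠ 0 := by
  unfold sh
  rw [bind₁_monomial, map_mul, eval_C, map_prod]
  refine mul_ne_zero hc (Finset.prod_ne_zero_iff.2 fun a _ => ?_)
  rw [map_pow, map_sub, eval_X, eval_C]
  exact pow_ne_zero _ (sub_ne_zero.2 (hv a))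

theorem cmp_monomial (hv : ∀ a, v0 a ≠ ν) {c : ℂ} (hc : c ≠ 0) (m : κ →₀ ℕ) :
    Cmp ν v0 (sh ν (monomial m c)) := by
  classical
  induction m using Finsupp.induction with
  | zero =>
    have h1 : sh ν (monomial (0 : κ →₀ ℕ) c) = C c := by
      show sh ν (C c) = C c
      unfold sh
      rw [bind₁_C_right]
    rw [h1]
    exact Cmp.const hc
  | single_add a b m _ _ ih =>
    clear * - ih hv hc
    induction b with
    | zero => rwa [Finsupp.single_zero, zero_add]
    | succ b ihb =>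
      have h1 : (monomial (Finsupp.single a (b + 1) + m) c : MvPolynomial κ ℂ) =
          X a * monomial (Finsupp.single a b + m) c := by
        rw [MvPolynomial.X, monomial_mul, one_mul, Finsupp.single_add]
        congr 1
        rw [add_comm (Finsupp.single a b) (Finsupp.single a 1), add_assoc]
      have h2 : sh ν (monomial (Finsupp.single a (b + 1) + m) c) =
          (X a - C ν) * sh ν (monomial (Finsupp.single a b + m) c) + 0 := by
        rw [h1, map_mul, add_zero]
        congr 1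
        unfold sh
        rw [bind₁_X_right]
      rw [h2]
      refine Cmp.gate (Cmp.inp a) ihb Cmp.zero ?_
      rw [← h2]
      exact eval_sh_monomial hv hc _

/-- Every polynomial can be computed up to a constant. -/
theorem cmp_add (hv : ∀ a, v0 a ≠ ν) (f : MvPolynomial κ ℂ) :
    ∃ β : ℂ, β ≠ 0 ∧ Cmp ν v0 (C β + f) := by
  classical
  obtain ⟨F, rfl⟩ : ∃ F, sh ν F = f := ⟨_, sh_surj f⟩
  let ps : Finset (κ →₀ ℕ) → MvPolynomial κ ℂ := fun s => ∑ m ∈ s, monomial m (coeff m F)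
  have hfin : ((insert 0 ((fun s => -eval v0 (sh ν (ps s))) '' {s | s ⊆ F.support})) :
      Set ℂ).Finite :=
    Set.Finite.insert _ (((Finset.finite_toSet F.support.powerset).subset (by
      intro s hs
      simpa using hs)).image _)
  obtain ⟨β, hβ⟩ := hfin.infinite_compl.nonempty
  have hβ0 : β ≠ 0 := fun h => hβ (Or.inl h)
  have hβ1 : ∀ s ⊆ F.support, eval v0 (C β + sh ν (ps s)) ≠ 0 := by
    intro s hs h
    rw [map_add, eval_C] at h
    exact hβ (Or.inr ⟨s, hs, by linear_combination -h⟩)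
  have hmain : ∀ s ⊆ F.support, Cmp ν v0 (C β + sh ν (ps s)) := by
    intro s
    induction s using Finset.induction_on with
    | empty =>
      intro _
      have h1 : (C β + sh ν (ps ∅) : MvPolynomial κ ℂ) = C β := by
        simp [ps]
      rw [h1]
      exact Cmp.const hβ0
    | insert m s hm ih =>
      intro hs
      have hms : m ∈ F.support := hs (Finset.mem_insert_self m s)
      have hss : s ⊆ F.support := (Finset.subset_insert m s).trans hs
      have h1 : (C β + sh ν (ps (insert m s)) : MvPolynomial κ ℂ) =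
          C 1 * sh ν (monomial m (coeff m F)) + (C β + sh ν (ps s)) := by
        simp only [ps, Finset.sum_insert hm, map_add, C_1]
        ring
      rw [h1]
      refine Cmp.gate (Cmp.const one_ne_zero) (cmp_monomial hv (mem_support_iff.1 hms) m)
        (ih hss) ?_
      rw [← h1]
      exact hβ1 _ hs
  refine ⟨β, hβ0, ?_⟩
  have h1 := hmain F.support subset_rfl
  have h2 : ps F.support = F := support_sum_monomial_coeff F
  rwa [h2] at h1

theorem exists_term (hv : ∀ a, v0 a ≠ ν) (f : MvPolynomial κ ℂ) :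
    ∃ (A : Set ℂ) (S : Set (Term κ)) (t : Term κ), Good ν v0 A S ∧ OkGate A S t ∧ t.val ν = f := by
  obtain ⟨β, hβ, A, S, t, h1, h2, h3⟩ := cmp_add hv f
  refine ⟨_, S, Term.gate (Term.const 1) t (Term.const (-β)),
    (h1.addConst one_ne_zero).addConst (neg_ne_zero.2 hβ), ⟨_, _, _, rfl, ?_, ?_, ?_⟩, ?_⟩
  · exact Or.inr (Or.inl ⟨1, Set.mem_insert_of_mem _ (Set.mem_insert _ _), rfl⟩)
  · exact h2.mono ((Set.subset_insert _ _).trans (Set.subset_insert _ _)) subset_rfl
  · exact Or.inr (Or.inl ⟨-β, Set.mem_insert _ _, rfl⟩)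
  · rw [Term.val, h3, Term.val, Term.val, C_1, C_neg]
    ring

/-- The circuit for a family of polynomials. -/
structure Circ (ν : ℂ) (v0 : κ → ℂ) {I : Type} (f : I → MvPolynomial κ ℂ) where
  A : Set ℂ
  S : Set (Term κ)
  tm : I → Term κ
  good : Good ν v0 A S
  one : (1 : ℂ) ∈ A
  tmok : ∀ i, OkGate A S (tm i)
  tmv : ∀ i, (tm i).val ν = f i
  inpS : ∀ a, Term.gate (Term.inp a) (Term.inp a) Term.zero ∈ S
  constS : ∀ c ∈ A, ∃ a, Term.gate (Term.const c) (Term.inp a) Term.zero ∈ S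

theorem exists_circ [Finite κ] [Nonempty κ] (hv : ∀ a, v0 a ≠ ν) {I : Type} [Finite I]
    (f : I → MvPolynomial κ ℂ) : Nonempty (Circ ν v0 f) := by
  classical
  have h := fun i => exists_term hv (f i)
  choose A S t h1 h2 h3 using h
  have g1 : Good ν v0 (insert 1 (⋃ i, A i)) (⋃ i, S i) :=
    (Good.iUnion h1).addConst one_ne_zero
  set A0 : Set ℂ := insert 1 (⋃ i, A i) with hA0
  have hins : ∀ (L : Set (Term κ)), L.Finite → (∀ t ∈ L, OkGate A0 (⋃ i, S i) t ∧
      eval v0 (t.val ν) ≠ 0) → Good ν v0 A0 ((⋃ i, S i) ∪ L) := by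
    intro L hL hall
    refine ⟨g1.finA, g1.zero, g1.finS.union hL, ?_, ?_⟩
    · rintro t (ht | ht)
      · exact (g1.closed t ht).mono subset_rfl Set.subset_union_left
      · exact (hall t ht).1.mono subset_rfl Set.subset_union_left
    · rintro t (ht | ht)
      · exact g1.ne t ht
      · exact (hall t ht).2
  obtain ⟨a0⟩ := (inferInstance : Nonempty κ)
  have hsub : ∀ a, v0 a - ν ≠ 0 := fun a => sub_ne_zero.2 (hv a)
  have g2 := hins (Set.range (fun a => Term.gate (Term.inp a) (Term.inp a) Term.zero) ∪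
      (fun c => Term.gate (Term.const c) (Term.inp a0) Term.zero) '' A0)
    ((Set.finite_range _).union (g1.finA.image _)) (by
      rintro t (⟨a, rfl⟩ | ⟨c, hc, rfl⟩)
      · refine ⟨⟨_, _, _, rfl, Or.inl ⟨a, rfl⟩, Or.inl ⟨a, rfl⟩, Or.inr (Or.inr (Or.inl rfl))⟩, ?_⟩
        simp only [Term.val, map_add, map_mul, map_sub, eval_X, eval_C, map_zero, add_zero]
        exact mul_ne_zero (hsub a) (hsub a)
      · refine ⟨⟨_, _, _, rfl, Or.inr (Or.inl ⟨c, hc, rfl⟩), Or.inl ⟨a0, rfl⟩,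
          Or.inr (Or.inr (Or.inl rfl))⟩, ?_⟩
        simp only [Term.val, map_add, map_mul, map_sub, eval_X, eval_C, map_zero, add_zero]
        refine mul_ne_zero ?_ (hsub a0)
        rintro rfl
        exact g1.zero hc)
  refine ⟨⟨A0, _, t, g2, Set.mem_insert _ _, fun i => ?_, h3, fun a => ?_, fun c hc => ?_⟩⟩
  · exact (h2 i).mono ((Set.subset_iUnion _ i).trans (Set.subset_insert _ _))
      ((Set.subset_iUnion _ i).trans Set.subset_union_left)
  · exact Or.inr (Or.inl ⟨a, rfl⟩)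
  · exact ⟨a0, Or.inr (Or.inr ⟨c, hc, rfl⟩)⟩

end Pool.Agent.T6.H15.MH
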