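import Pool.Agent.T6.H15.MH.Bound

/-!
# The defects of closed sets which contain the image of a power: the estimate
-/

set_option autoImplicit false

open MvPolynomial

namespace Pool.Agent.T6.H15.MH

open Pool.Agent.T6.H15.ZP Pool.Agent.T6.H15.MZ Pool.Agent.T6.H15.MS

variable {R : ℂ → ℂ → Prop} {G : Set ℂ}

variable {κ μ ι T : Type} [Fintype κ] [DecidableEq κ] [Fintype μ] [Fintype ι] [Fintype T]
  {s : Finset κ}
  {p : {b // b ∉ s} → MvPolynomial (Option s) ℂ} {ν : ℂ} {v0 : κ → ℂ}
  {E : Circ ν v0 (fun b : {b // b ∉ s} => depPoly b.1 (p b))} {j k : ℕ} {c : μ → ℂ}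
  {g : Jx E j → ℂ} {V : Set (κ → ℂ)} {B : Set ℂ}
  {β : Cx μ E j → ι} {copy : T → Cd E → ι} {idx : ι → Cx μ E j ⊕ (T × Cd E)} {W : Set (ι → ℂ)}

theorem card_Cx : Fintype.card (Cx μ E j) =
    Fintype.card μ + 1 + (2 * Fintype.card E.A + 2 * j) := by
  rw [Fintype.card_sum, Fintype.card_sum, Fintype.card_unit, Fintype.card_sum, Fintype.card_sum,
    Fintype.card_fin]
  ring

theorem card_Gt : Fintype.card (Gt E) + s.card = Fintype.card E.S + Fintype.card κ := by
  have h1 : Fintype.card {b // b ∉ s} = Fintype.card κ - s.card := by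
    rw [Fintype.card_subtype_compl]
    simp
  have h2 := Finset.card_le_univ s
  rw [Fintype.card_sum, h1]
  omega

theorem card_Cd : Fintype.card (Cd E) =
    Fintype.card κ + (Fintype.card (Gt E) + Fintype.card E.S) := by
  rw [Fintype.card_sum, Fintype.card_sum]

theorem Sit.card_ι (h : Sit R G E k c g V B β copy idx W) : Fintype.card ι =
    Fintype.card μ + 1 + (2 * Fintype.card E.A + 2 * j) +
      k * (Fintype.card κ + (Fintype.card (Gt E) + Fintype.card E.S)) := by
  rw [h.pow.pow.card, card_Cx, card_Cd]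

/-- The number of classes at a very general point. -/
theorem Sit.gd_ge (hR : Corr R G) (h : Sit R G E k c g V B β copy idx W)
    {Y : Set (((T × Gt E) ⊕ Fin j) × Fin 8 → ℂ)} (hY : img (rho β copy) W ⊆ Y) :
    Fintype.card ι ≤ gd R G Y + Fintype.card μ := by
  classical
  obtain ⟨w, hw, hi⟩ := h.pow.pow.generic
  have hloc : ∀ i : {i // ∃ z, rho β copy z = i}, ∃ z, rho β copy z = i := fun i => i.2
  choose θ hθ using hloc
  have hinj : Function.Injective θ := by
    intro i i' hii
    apply Subtype.ext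
    rw [← hθ i, ← hθ i', hii]
  have h1 : Ind R G (fun z => w (rho β copy z)) (Finset.univ.map ⟨θ, hinj⟩) := by
    constructor
    · intro z hz
      exact hi.1 _ (Finset.mem_univ _)
    · intro z hz z' hz' hzz
      obtain ⟨i, -, rfl⟩ := Finset.mem_map.1 hz
      obtain ⟨i', -, rfl⟩ := Finset.mem_map.1 hz'
      have h2 := hi.2 _ (Finset.mem_univ _) _ (Finset.mem_univ _) hzz
      congr 1
      apply Subtype.ext
      rw [← hθ i, ← hθ i']
      exact h2
  have h2 := card_le_ncl hR.toRel h1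
  rw [Finset.card_map, Finset.card_univ] at h2
  have h3 : ncl R G (fun z => w (rho β copy z)) ≤ gd R G Y :=
    ncl_le_gd hR.toRel (hY ⟨w, hw, rfl⟩)
  have h4 : Fintype.card ι ≤ Fintype.card {i // ∃ z, rho β copy z = i} + Fintype.card μ := by
    have h5 : Function.Surjective (Sum.elim (fun i : {i // ∃ z, rho β copy z = i} => (i : ι))
        (fun m : μ => β (Sum.inl (Sum.inl m)))) := by
      intro i
      rcases h.rho_surj i with hi | ⟨m, hm⟩
      · exact ⟨Sum.inl ⟨i, hi⟩, rfl⟩
      · exact ⟨Sum.inr m, hm.symm⟩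
    have h6 := Fintype.card_le_of_surjective _ h5
    rwa [Fintype.card_sum] at h6
  omega

/-- **The estimate.** -/
theorem Sit.upper (hR : Corr R G) (hB : Avoid R B) (h : Sit R G E k c g V B β copy idx W)
    {Y : Set (((T × Gt E) ⊕ Fin j) × Fin 8 → ℂ)} (hY : IsVar Y)
    (hYs : Y ⊆ hyp ((T × Gt E) ⊕ Fin j)) (hUY : img (rho β copy) W ⊆ Y) :
    Fintype.card ((T × Gt E) ⊕ Fin j) + dim Y ≤ gd R G Y := by
  classical
  have hUi : Irred (img (rho β copy) W) := irred_img h.pow.pow.var.irred
  have hU : IsVar (zcl (img (rho β copy) W)) := isVar_zcl hUi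
  have hUY' : zcl (img (rho β copy) W) ⊆ Y := fun z hz =>
    hY.closed z fun q hq => hz q (idealOf_mono hUY hq)
  obtain ⟨Y1, a1, a2, a3, a4, a5⟩ := exists_full hR hU _ Y hY hUY' le_rfl
  have hWY1 : img (rho β copy) W ⊆ Y1 := (subset_zcl _).trans a2
  have a6 := h.gd_ge hR hWY1
  -- the locations of the coordinates
  obtain ⟨t0⟩ := h.neT
  obtain ⟨x0⟩ := h.neκ
  have hne : Nonempty (((T × Gt E) ⊕ Fin j) × Fin 8) :=
    ⟨(Sum.inl (t0, Sum.inl ⟨_, E.inpS x0⟩), 0)⟩
  set θ : ι → ((T × Gt E) ⊕ Fin j) × Fin 8 := Function.invFun (rho β copy) with hθdef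
  have hθ : ∀ i, (∃ z, rho β copy z = i) → rho β copy (θ i) = i :=
    fun i hi => Function.invFun_eq hi
  have hθc : ∀ t x, rho β copy (θ (copy t x)) = copy t x := by
    intro t x
    apply hθ
    rcases h.rho_surj (copy t x) with h1 | ⟨m, hm⟩
    · exact h1
    · exfalso
      have h2 := congrArg idx hm
      rw [h.pow.idxc, h.pow.idxβ] at h2
      exact absurd h2 (by simp)
  have hθb : ∀ x : Cx μ E j, (∀ m, x ≠ Sum.inl (Sum.inl m)) → rho β copy (θ (β x)) = β x := by
    intro x hx
    apply hθ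
    rcases h.rho_surj (β x) with h1 | ⟨m, hm⟩
    · exact h1
    · exfalso
      have h2 := congrArg idx hm
      rw [h.pow.idxβ, h.pow.idxβ, Sum.inl.injEq] at h2
      exact hx m h2
  -- the parameters
  let pc : Unit ⊕ (Jx E j ⊕ E.A) → Cx μ E j := fun x => match x with
    | Sum.inl u => Sum.inl (Sum.inr u)
    | Sum.inr (Sum.inl i) => Sum.inr (Sum.inl i)
    | Sum.inr (Sum.inr a) => Sum.inr (Sum.inr (Sum.inl a))
  have hpc : ∀ x m, pc x ≠ Sum.inl (Sum.inl m) := by
    rintro (u | i | a) m <;> simp [pc]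
  obtain ⟨Y2, b1, b2, b3, b4, b5⟩ := krull_finset
    (Finset.univ : Finset (Unit ⊕ (Jx E j ⊕ E.A)))
    (fun x => (X (θ (β (pc x))) - C (cc c g (pc x)) :
      MvPolynomial (((T × Gt E) ⊕ Fin j) × Fin 8) ℂ)) a1 hU a2 (by
      intro x _
      rw [idealOf_zcl, mem_idealOf]
      rintro _ ⟨w, hw, rfl⟩
      rw [map_sub, eval_X, eval_C]
      dsimp only
      rw [hθb _ (hpc x), h.pow.pow.base w hw, sub_self])
  have hWY2 : img (rho β copy) W ⊆ Y2 := (subset_zcl _).trans b2
  -- equal coordinates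
  have htr : ∀ z z', rho β copy z = rho β copy z' → ∀ y ∈ Y2, y z = y z' := by
    intro z z' hzz y hy
    have hu : ∃ w ∈ W, w (rho β copy z) ∉ B := by
      obtain ⟨w0, hw0⟩ := h.pow.pow.var.nonempty
      rcases h.pow.cases (rho β copy z) with ⟨x, hx⟩ | ⟨t, x, hx⟩
      · refine ⟨w0, hw0, ?_⟩
        rw [hx, h.pow.pow.base w0 hw0]
        rcases x with (m | u) | i | i
        · exact absurd hx (h.rho_ne z m)
        · exact h.νB
        · exact (h.gB i).1
        · exact (h.gB i).2
      · obtain ⟨v, hv, hvB⟩ := h.vB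
        obtain ⟨w, hw, hwv⟩ := h.pow.surj t v hv
        refine ⟨w, hw, ?_⟩
        rw [hx]
        have h1 := congrFun hwv x
        rw [h1]
        exact hvB x
    obtain ⟨w, hw, hwB⟩ := hu
    refine hB _ Y2 b1 z z' (fun y hy => a4.1 z z' ?_ y (b3 hy))
      (fun z => w (rho β copy z)) (hWY2 ⟨w, hw, rfl⟩) (by rw [hzz]) hwB y hy
    intro u hu
    have h1 : u z = u z' := by
      have h2 := hu (X z - X z') (by
        rw [mem_idealOf]
        rintro _ ⟨w, hw, rfl⟩
        rw [map_sub, eval_X, eval_X]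
        dsimp only
        rw [hzz, sub_self])
      rw [map_sub, eval_X, eval_X, sub_eq_zero] at h2
      exact h2
    rw [h1]
    exact hR.equiv.refl _
  have hYbar : ∀ y ∈ Y2, (fun z => (fun i => y (θ i)) (rho β copy z)) = y := by
    intro y hy
    funext z
    exact htr _ _ (hθ _ ⟨z, rfl⟩) y hy
  have hhyp : ∀ y ∈ Y2, (fun z => (fun i => y (θ i)) (rho β copy z)) ∈
      hyp ((T × Gt E) ⊕ Fin j) := by
    intro y hy
    rw [hYbar y hy]
    exact hYs (a3 (b3 hy))
  have hparam : ∀ y ∈ Y2, ∀ x, y (θ (β (pc x))) = cc c g (pc x) := by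
    intro y hy x
    have h1 := mem_idealOf.1 (b4 x (Finset.mem_univ _)) y hy
    rwa [map_sub, eval_X, eval_C, sub_eq_zero] at h1
  have hLν : ∀ y ∈ Y2, ∀ t, (fun l => (fun i => y (θ i)) (emb β copy t l)) (nu μ E j) = ν :=
    fun y hy t => hparam y hy (Sum.inl ())
  have hLu : ∀ y ∈ Y2, ∀ a : E.A, y (θ (β (Sum.inr (Sum.inr (Sum.inl a))))) =
      g (Sum.inl a) + a := fun y hy a => hparam y hy (Sum.inr (Sum.inr a))
  have hLv : ∀ y ∈ Y2, ∀ i : Jx E j, y (θ (β (Sum.inr (Sum.inl i)))) = g i :=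
    fun y hy i => hparam y hy (Sum.inr (Sum.inl i))
  have hLA : ∀ y ∈ Y2, ∀ t, ∀ a : E.A,
      (fun l => (fun i => y (θ i)) (emb β copy t l)) (Sum.inl (Sum.inr (Sum.inr (Sum.inl a)))) -
      (fun l => (fun i => y (θ i)) (emb β copy t l)) (Sum.inl (Sum.inr (Sum.inl (Sum.inl a)))) =
        a := by
    intro y hy t a
    show y (θ (β (Sum.inr (Sum.inr (Sum.inl a))))) -
      y (θ (β (Sum.inr (Sum.inl (Sum.inl a))))) = a
    rw [hLu y hy, hLv y hy]
    ring
  have hgate : ∀ y ∈ Y2, ∀ t n, GateEq E (fun l => (fun i => y (θ i)) (emb β copy t l)) n :=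
    fun y hy => ((mem_hyp_iff (fun i => y (θ i))).1 (hhyp y hy)).1
  have hpad : ∀ y ∈ Y2, ∀ q : Fin j, y (θ (β (Sum.inr (Sum.inr (Sum.inr q))))) =
      g (Sum.inr q) + 2 := by
    intro y hy q
    have h1 := ((mem_hyp_iff (fun i => y (θ i))).1 (hhyp y hy)).2 q
    rw [hLu y hy, hLv y hy, hLv y hy] at h1
    linear_combination h1
  have hval : ∀ y ∈ Y2, ∀ t, ∀ u, Ok E.A E.S u →
      diff E (fun l => (fun i => y (θ i)) (emb β copy t l)) u =
        eval (fun a => y (θ (copy t (Sum.inl a)))) (u.val ν) := by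
    intro y hy t u hu
    exact diff_val E (hLν y hy t) (hLA y hy t) (fun t' => hgate y hy t (Sum.inl t')) u hu
  have hz : ∀ y ∈ Y2, ∀ t, ∀ t' : E.S, y (θ (copy t (Sum.inr (Sum.inr t')))) =
      y (θ (copy t (Sum.inr (Sum.inl (Sum.inl t'))))) +
        eval (fun a => y (θ (copy t (Sum.inl a)))) (t'.1.val ν) := by
    intro y hy t t'
    rw [← hval y hy t t'.1 (Or.inr (Or.inr (Or.inr t'.2))), diff_gate]
    show _ = _ + (y (θ (copy t (Sum.inr (Sum.inr t')))) -
      y (θ (copy t (Sum.inr (Sum.inl (Sum.inl t'))))))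
    ring
  have hfin : ∀ y ∈ Y2, ∀ t, ∀ b : {b // b ∉ s},
      eval (fun a => y (θ (copy t (Sum.inl a)))) (depPoly b.1 (p b)) = 0 := by
    intro y hy t b
    obtain ⟨t1, t2, t3, h1, k1, k2, k3⟩ := E.tmok b
    have h2 := hgate y hy t (Sum.inr b)
    unfold GateEq at h2
    have h3 : gtm E (Sum.inr b) = Term.gate t1 t2 t3 := h1
    rw [h3, Term.arg1, Term.arg2, Term.arg3, hval y hy t _ k1, hval y hy t _ k2,
      hval y hy t _ k3, ← map_mul, ← map_add, outp, sub_self] at h2
    rw [← E.tmv b, h1, Term.val]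
    exact h2.symm
  -- the transcendence basis
  have hYp : (idealOf Y2).IsPrime := b1.irred
  set QB := MvPolynomial (((T × Gt E) ⊕ Fin j) × Fin 8) ℂ ⧸ idealOf Y2 with hQB
  set z_ : ((T × Gt E) ⊕ Fin j) × Fin 8 → QB :=
    fun i => Ideal.Quotient.mk (idealOf Y2) (MvPolynomial.X i) with hz_
  set T0 : Finset (((T × Gt E) ⊕ Fin j) × Fin 8) :=
    (((Finset.univ : Finset T) ×ˢ s).image fun x => θ (copy x.1 (Sum.inl x.2))) ∪
      ((Finset.univ : Finset (T × Gt E)).image fun x => θ (copy x.1 (Sum.inr (Sum.inl x.2))))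
    with hT0
  set A0 := Algebra.adjoin ℂ (z_ '' (T0 : Set _)) with hA0
  have hmk : ∀ q q' : MvPolynomial (((T × Gt E) ⊕ Fin j) × Fin 8) ℂ,
      (∀ y ∈ Y2, eval y q = eval y q') →
      Ideal.Quotient.mk (idealOf Y2) q = Ideal.Quotient.mk (idealOf Y2) q' := by
    intro q q' hq
    rw [Ideal.Quotient.eq, mem_idealOf]
    intro y hy
    rw [map_sub, hq y hy, sub_self]
  have halgC : ∀ d : ℂ, IsAlgebraic A0 (Ideal.Quotient.mk (idealOf Y2) (C d) : QB) := by
    intro d
    have h1 : (Ideal.Quotient.mk (idealOf Y2) (C d) : QB) =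
        algebraMap A0 QB (algebraMap ℂ A0 d) := rfl
    rw [h1]
    exact isAlgebraic_algebraMap _
  have hS0 : ∀ t, ∀ a ∈ s, z_ (θ (copy t (Sum.inl a))) ∈ z_ '' (T0 : Set _) := by
    intro t a ha
    refine ⟨_, ?_, rfl⟩
    rw [hT0, Finset.coe_union]
    left
    rw [Finset.mem_coe, Finset.mem_image]
    exact ⟨(t, a), by simp [ha], rfl⟩
  have hM0 : ∀ t n, z_ (θ (copy t (Sum.inr (Sum.inl n)))) ∈ z_ '' (T0 : Set _) := by
    intro t n
    refine ⟨_, ?_, rfl⟩
    rw [hT0, Finset.coe_union]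
    right
    rw [Finset.mem_coe, Finset.mem_image]
    exact ⟨(t, n), Finset.mem_univ _, rfl⟩
  have halgM : ∀ t n, IsAlgebraic A0 (z_ (θ (copy t (Sum.inr (Sum.inl n))))) := fun t n =>
    isAlgebraic_algebraMap (⟨_, Algebra.subset_adjoin (hM0 t n)⟩ : A0)
  -- the dependent coordinates
  have halgX : ∀ t a, IsAlgebraic A0 (z_ (θ (copy t (Sum.inl a)))) := by
    intro t a
    by_cases ha : a ∈ s
    · exact isAlgebraic_algebraMap (⟨_, Algebra.subset_adjoin (hS0 t a ha)⟩ : A0)
    have hind : AlgebraicIndependent ℂ (fun i : s => z_ (θ (copy t (Sum.inl (i : κ))))) := by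
      have h1 : Indep Y2 (fun i : s => θ (copy t (Sum.inl (i : κ)))) := by
        intro q hq
        apply h.sind q
        intro x hx
        obtain ⟨w, hw, hwv⟩ := h.pow.surj t _ (eval_sharpF_mem E
          (w := Sum.elim x fun _ => (0 : ℂ)) hx)
        have h2 := hq _ (hWY2 ⟨w, hw, rfl⟩)
        have h3 : (fun i : s => w (rho β copy (θ (copy t (Sum.inl (i : κ)))))) =
            fun i : s => x i := by
          funext i
          rw [hθc]
          have h4 := congrFun hwv (Sum.inl (i : κ))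
          rw [h4]
          show eval _ (X (Sum.inl (i : κ))) = _
          rw [eval_X]
          rfl
        rw [← h3]
        exact h2
      exact (indep_iff _ _).1 h1
    have hnot : ¬ AlgebraicIndependent ℂ (fun o : Option s =>
        o.elim (z_ (θ (copy t (Sum.inl a)))) fun i => z_ (θ (copy t (Sum.inl (i : κ))))) := by
      rw [algebraicIndependent_iff]
      push Not
      refine ⟨p ⟨a, ha⟩, ?_, h.hp ⟨a, ha⟩⟩
      have h1 : aeval (fun o : Option s => o.elim (z_ (θ (copy t (Sum.inl a))))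
          fun i => z_ (θ (copy t (Sum.inl (i : κ))))) (p ⟨a, ha⟩) =
          Ideal.Quotient.mk (idealOf Y2) (rename (fun o : Option s =>
            θ (copy t (Sum.inl (o.elim a fun i => (i : κ))))) (p ⟨a, ha⟩)) := by
        rw [← aeval_mk Y2 (fun o : Option s => θ (copy t (Sum.inl (o.elim a fun i => (i : κ)))))]
        congr 1
        congr 1
        funext o
        rcases o with - | o <;> rfl
      rw [h1, Ideal.Quotient.eq_zero_iff_mem, mem_idealOf]
      intro y hy
      rw [eval_rename]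
      have h2 := hfin y hy t ⟨a, ha⟩
      unfold depPoly at h2
      rw [eval_rename] at h2
      exact h2
    have halg : IsAlgebraic (Algebra.adjoin ℂ
        (Set.range fun i : s => z_ (θ (copy t (Sum.inl (i : κ)))))) (z_ (θ (copy t (Sum.inl a)))) := by
      by_contra hcon
      exact hnot ((hind.option_iff_transcendental _).2 hcon)
    refine halg.adjoin_of_forall_isAlgebraic ?_
    rintro _ ⟨⟨i, rfl⟩, hi⟩
    exact absurd (hS0 t i i.2) hi
  have halgP : ∀ t (q : MvPolynomial κ ℂ), IsAlgebraic A0 (Ideal.Quotient.mk (idealOf Y2)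
      (rename (fun a => θ (copy t (Sum.inl a))) q) : QB) := by
    intro t q
    induction q using MvPolynomial.induction_on with
    | C d =>
      rw [rename_C]
      exact halgC d
    | add q q' hq hq' =>
      rw [map_add, map_add]
      exact hq.add hq'
    | mul_X q i hq =>
      rw [map_mul, map_mul, rename_X]
      exact hq.mul (halgX t i)
  obtain ⟨S, hS1, hS2, hS3⟩ := exists_indep_in b1.irred (T0 : Set _) (by
    intro i
    show IsAlgebraic A0 (z_ i)
    have h1 : z_ i = z_ (θ (rho β copy i)) := by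
      apply hmk
      intro y hy
      rw [eval_X, eval_X]
      exact (htr _ _ (hθ _ ⟨i, rfl⟩) y hy).symm
    rw [h1]
    rcases h.pow.cases (rho β copy i) with ⟨x, hx⟩ | ⟨t, x, hx⟩
    · rw [hx]
      have hconst : ∀ d : ℂ, (∀ y ∈ Y2, y (θ (β x)) = d) → IsAlgebraic A0 (z_ (θ (β x))) := by
        intro d hd
        have h2 : z_ (θ (β x)) = (Ideal.Quotient.mk (idealOf Y2) (C d) : QB) := by
          apply hmk
          intro y hy
          rw [eval_X, eval_C]
          exact hd y hy
        rw [h2]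
        exact halgC d
      rcases x with (m | u) | i' | (a | q)
      · exact absurd hx (h.rho_ne i m)
      · exact hconst ν fun y hy => hparam y hy (Sum.inl u)
      · exact hconst _ fun y hy => hLv y hy i'
      · exact hconst _ fun y hy => hLu y hy a
      · exact hconst _ fun y hy => hpad y hy q
    · rw [hx]
      rcases x with a | n | t'
      · exact halgX t a
      · exact halgM t n
      · have h2 : z_ (θ (copy t (Sum.inr (Sum.inr t')))) =
            z_ (θ (copy t (Sum.inr (Sum.inl (Sum.inl t'))))) +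
            Ideal.Quotient.mk (idealOf Y2)
              (rename (fun a => θ (copy t (Sum.inl a))) (t'.1.val ν)) := by
          rw [hz_]
          dsimp only
          rw [← map_add]
          apply hmk
          intro y hy
          rw [map_add, eval_X, eval_X, eval_rename]
          exact hz y hy t t'
        rw [h2]
        exact (halgM t _).add (halgP t _))
  -- the count
  have hST : S ⊆ T0 := fun i hi => hS1 i hi
  have c1 := Finset.card_le_card hST
  have c2 : T0.card ≤ k * s.card + k * Fintype.card (Gt E) := by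
    rw [hT0]
    refine (Finset.card_union_le _ _).trans (add_le_add ?_ ?_)
    · refine Finset.card_image_le.trans ?_
      rw [Finset.card_product, Finset.card_univ, h.pow.cardT]
    · refine Finset.card_image_le.trans ?_
      rw [Finset.card_univ, Fintype.card_prod, h.pow.cardT]
  have c3 : (Finset.univ : Finset (Unit ⊕ (Jx E j ⊕ E.A))).card =
      1 + (Fintype.card E.A + j + Fintype.card E.A) := by
    rw [Finset.card_univ, Fintype.card_sum, Fintype.card_sum, Fintype.card_sum,
      Fintype.card_unit, Fintype.card_fin]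
  have c4 : Fintype.card ((T × Gt E) ⊕ Fin j) = k * Fintype.card (Gt E) + j := by
    rw [Fintype.card_sum, Fintype.card_prod, Fintype.card_fin, h.pow.cardT]
  have c5 := h.card_ι
  have c6 := card_Gt (E := E)
  have c7 : k * (Fintype.card κ + (Fintype.card (Gt E) + Fintype.card E.S)) =
      k * s.card + k * Fintype.card (Gt E) + k * Fintype.card (Gt E) := by
    rw [← mul_add, ← mul_add]
    congr 1
    omega
  rw [c3] at b5
  rw [c7] at c5
  rw [c4]
  omega

end Pool.Agent.T6.H15.MH
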